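import Pool.Agent.H30.HK.APNa

/-!
MP_e94f6f_an (helper96), module APN.
-/

open MeasureTheory Set Filter Topology
open scoped ContDiff
open Pool.Agent.H96.HK

namespace Pool.Agent.H30.HK

variable {n : ℕ}

/-! ### sums -/

theorem pd_add {k : ℕ} (i : Fin k) {f g : E k → ℝ} (hf : ContDiff ℝ 1 f) (hg : ContDiff ℝ 1 g) :
    pd i (fun x => f x + g x) = fun x => pd i f x + pd i g x := by
  funext x
  unfold pd
  have h1 := hf.differentiable (by norm_num) x
  have h2 := hg.differentiable (by norm_num) x
  rw [fderiv_fun_add h1 h2]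
  rfl

theorem contDiff_pd {k : ℕ} (i : Fin k) {f : E k → ℝ} (hf : ContDiff ℝ 2 f) :
    ContDiff ℝ 1 (pd i f) := by
  unfold pd
  exact (hf.fderiv_right (m := 1) (by norm_num)).clm_apply contDiff_const

theorem lap_add (hL : T_LAP) {F : ℝ → ℝ} (hF : Prof F) {f g : E (n + 2) → ℝ}
    (hf : ContDiff ℝ 2 f) (hg : ContDiff ℝ 2 g) (x : E (n + 2)) :
    lap (gF F n) (fun x => f x + g x) x = lap (gF F n) f x + lap (gF F n) g x := by
  rw [(hL F hF n).2 _ x (hf.add hg).contDiffAt, (hL F hF n).2 f x hf.contDiffAt,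
    (hL F hF n).2 g x hg.contDiffAt]
  have h1 : ∀ i, pd i (fun x => f x + g x) = fun x => pd i f x + pd i g x := fun i =>
    pd_add i (hf.of_le (by norm_num)) (hg.of_le (by norm_num))
  have h2 : ∀ i, pd i (pd i (fun x => f x + g x)) = fun x => pd i (pd i f) x + pd i (pd i g) x := by
    intro i
    rw [h1 i]
    exact pd_add i (contDiff_pd i hf) (contDiff_pd i hg)
  rw [h2, h1, h2]
  simp only [h2, Finset.sum_add_distrib]
  ring

theorem niceN_add (hL : T_LAP) {F : ℝ → ℝ} (hF : Prof F) {u v : ℝ → E (n + 2) → ℝ}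
    (hu : NiceN F n u) (hv : NiceN F n v) : NiceN F n (fun t x => u t x + v t x) := by
  refine ⟨fun t ht => (hu.c2 t ht).add (hv.c2 t ht), ?_, hu.cont.add hv.cont, ?_, ?_⟩
  · intro t ht x
    rw [lap_add hL hF (hu.c2 t ht) (hv.c2 t ht)]
    exact (hu.heat t ht x).add (hv.heat t ht x)
  · intro t ht x
    rw [hu.inv t ht, hv.inv t ht]
  · intro T hT ε hε
    obtain ⟨R1, h1⟩ := hu.dec T hT (ε / 2) (by positivity)
    obtain ⟨R2, h2⟩ := hv.dec T hT (ε / 2) (by positivity)
    refine ⟨max R1 R2, fun t ht x hx => ?_⟩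
    have e1 := h1 t ht x (by
      rcases hx with hx | ⟨i, hx⟩
      · exact Or.inl ((le_max_left _ _).trans hx)
      · exact Or.inr ⟨i, (le_max_left _ _).trans hx⟩)
    have e2 := h2 t ht x (by
      rcases hx with hx | ⟨i, hx⟩
      · exact Or.inl ((le_max_right _ _).trans hx)
      · exact Or.inr ⟨i, (le_max_right _ _).trans hx⟩)
    calc |u t x + v t x| ≤ |u t x| + |v t x| := abs_add_le _ _
      _ ≤ ε := by linarith

theorem niceN_zero (hL : T_LAP) {F : ℝ → ℝ} (hF : Prof F) :
    NiceN F n (fun _ _ => (0 : ℝ)) := by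
  refine ⟨fun t _ => contDiff_const, ?_, continuousOn_const, fun _ _ _ => rfl, ?_⟩
  · intro t _ x
    have h1 : lap (gF F n) (fun _ => (0 : ℝ)) x = 0 := by
      rw [(hL F hF n).2 _ x contDiff_const.contDiffAt]
      have h2 : ∀ i : Fin (n + 2), pd i (fun _ : E (n + 2) => (0 : ℝ)) = fun _ => 0 := by
        intro i
        funext y
        simp [pd]
      simp [h2]
    rw [h1]
    exact hasDerivAt_const _ _
  · intro T _ ε hε
    exact ⟨0, fun t _ x _ => by simp [hε.le]⟩

theorem summable_gam (hG : T_GAM) {ψ : E (n + 2) → ℝ} (hc : HasCompactSupport ψ)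
    (x : E (n + 2)) : Summable fun k : ℤ => ψ ((gam n ^ k) x) := by
  obtain ⟨B, hB⟩ := hc.isCompact.isBounded.exists_norm_le
  obtain ⟨K0, hK0⟩ := exists_nat_gt ((B + |x 1| + 1) * 2 / Real.pi)
  have hpi := Real.pi_pos
  refine summable_of_ne_finset_zero (s := Finset.Icc (-(K0 : ℤ)) K0) fun k hk => ?_
  by_contra hne
  have h1 := hB ((gam n ^ k) x) (subset_tsupport _ hne)
  have h2 : |((gam n ^ k) x) 1| ≤ B :=
    (le_trans (PiLp.norm_apply_le ((gam n ^ k) x) 1) h1 : ‖((gam n ^ k) x) 1‖ ≤ B)
  have h3 : ((gam n ^ k) x) 1 = x 1 + k * (Real.pi / 2) := by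
    have := ((hG n).1 k x).1
    have h4 : (pX ((gam n ^ k) x)).2 = (gk k (pX x)).2 := by rw [this]
    exact h4
  rw [h3] at h2
  have h4 : |(k : ℝ) * (Real.pi / 2)| ≤ B + |x 1| := by
    calc |(k : ℝ) * (Real.pi / 2)| = |(x 1 + k * (Real.pi / 2)) - x 1| := by ring_nf
      _ ≤ |x 1 + k * (Real.pi / 2)| + |x 1| := abs_sub _ _
      _ ≤ B + |x 1| := by linarith
  rw [abs_mul, abs_of_pos (show 0 < Real.pi / 2 by positivity)] at h4
  have h5 : |(k : ℝ)| < K0 := by
    refine lt_of_le_of_lt ?_ hK0
    rw [le_div_iff₀ hpi]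
    nlinarith
  apply hk
  rw [Finset.mem_Icc]
  have h6 := abs_lt.mp h5
  constructor
  · have : (-(K0 : ℝ)) < k := h6.1
    have : (-(K0 : ℤ)) < k := by exact_mod_cast this
    omega
  · have : (k : ℝ) < K0 := h6.2
    have : k < (K0 : ℤ) := by exact_mod_cast this
    omega

theorem continuous_Hn {F : ℝ → ℝ} {H : ℝ → X → X → ℝ} (hH : Heat F H) {t : ℝ} (ht : 0 < t)
    (x : E (n + 2)) : Continuous fun z : E (n + 2) => Hn H t x z := by
  unfold Hn
  have h1 : Continuous fun z : E (n + 2) => H t (pX x) (pX z) := by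
    have h2 : Continuous fun z : E (n + 2) => (t, pX x, pX z) :=
      continuous_const.prodMk (continuous_const.prodMk continuous_pX)
    exact hH.cont.comp_continuous h2 (fun z => ⟨ht, mem_univ _⟩)
  refine h1.mul ?_
  unfold En zz
  fun_prop

theorem integrable_Hn {F : ℝ → ℝ} {H : ℝ → X → X → ℝ} (hF : Prof F) (hH : Heat F H) {t : ℝ}
    (ht : 0 < t) (x : E (n + 2)) {ψ : E (n + 2) → ℝ} (hψ : Continuous ψ)
    (hc : HasCompactSupport ψ) :
    Integrable fun z : E (n + 2) => Hn H t x z * ψ z * F (z 0) := by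
  refine Continuous.integrable_of_hasCompactSupport
    (((continuous_Hn hH ht x).mul hψ).mul (hF.continuous.comp (by fun_prop))) ?_
  exact (hc.mul_left (f := fun z : E (n + 2) => Hn H t x z)).mul_right

/-- the class of approximable continuous functions with compact support -/
structure Good (F : ℝ → ℝ) (H : ℝ → X → X → ℝ) (n : ℕ) (ψ : E (n + 2) → ℝ) : Prop where
  cont : Continuous ψ
  cs : HasCompactSupport ψ
  appr : Appr F H n ψ

theorem good_zero (hL : T_LAP) {F : ℝ → ℝ} {H : ℝ → X → X → ℝ} (hF : Prof F) :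
    Good F H n (fun _ => 0) := by
  refine ⟨continuous_const, HasCompactSupport.zero, fun T _ η hη => ?_⟩
  refine ⟨fun _ _ => 0, niceN_zero hL hF, ?_, ?_⟩
  · intro x
    simp [hη.le]
  · intro t _ x
    simp [hη.le]

theorem good_add (hL : T_LAP) (hG : T_GAM) {F : ℝ → ℝ} {H : ℝ → X → X → ℝ} (hF : Prof F)
    (hH : Heat F H) {ψ φ : E (n + 2) → ℝ} (h1 : Good F H n ψ) (h2 : Good F H n φ) :
    Good F H n (fun x => ψ x + φ x) := by
  refine ⟨h1.cont.add h2.cont, h1.cs.add h2.cs, fun T hT η hη => ?_⟩
  obtain ⟨u, hu, hu0, hut⟩ := h1.appr T hT (η / 2) (by positivity)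
  obtain ⟨v, hv, hv0, hvt⟩ := h2.appr T hT (η / 2) (by positivity)
  refine ⟨fun t x => u t x + v t x, niceN_add hL hF hu hv, ?_, ?_⟩
  · intro x
    rw [(summable_gam hG h1.cs x).tsum_add (summable_gam hG h2.cs x)]
    have e1 := hu0 x
    have e2 := hv0 x
    rw [abs_le] at *
    constructor <;> linarith [e1.1, e1.2, e2.1, e2.2]
  · intro t ht x
    have h3 : (fun z : E (n + 2) => Hn H t x z * (ψ z + φ z) * F (z 0)) = fun z =>
        Hn H t x z * ψ z * F (z 0) + Hn H t x z * φ z * F (z 0) := by
      funext z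
      ring
    rw [h3, integral_add (integrable_Hn hF hH ht.1 x h1.cont h1.cs)
      (integrable_Hn hF hH ht.1 x h2.cont h2.cs)]
    have e1 := hut t ht x
    have e2 := hvt t ht x
    rw [abs_le] at *
    constructor <;> linarith [e1.1, e1.2, e2.1, e2.2]

theorem good_sum (hL : T_LAP) (hG : T_GAM) {F : ℝ → ℝ} {H : ℝ → X → X → ℝ} (hF : Prof F)
    (hH : Heat F H) {ι : Type*} (s : Finset ι) (ψ : ι → E (n + 2) → ℝ)
    (h : ∀ i ∈ s, Good F H n (ψ i)) : Good F H n (fun x => ∑ i ∈ s, ψ i x) := by
  classical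
  induction s using Finset.induction_on with
  | empty =>
    simp only [Finset.sum_empty]
    exact good_zero hL hF
  | insert a s ha ih =>
    simp only [Finset.sum_insert ha]
    exact good_add hL hG hF hH (h a (Finset.mem_insert_self _ _))
      (ih fun i hi => h i (Finset.mem_insert_of_mem hi))

/-! ### tents -/

/-- the tent function -/
noncomputable def tent (x : ℝ) : ℝ := max 0 (1 - |x|)

theorem tent_nonneg (x : ℝ) : 0 ≤ tent x := le_max_left _ _

theorem tent_le (x : ℝ) : tent x ≤ 1 := max_le zero_le_one (by have := abs_nonneg x; linarith)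

theorem continuous_tent : Continuous tent := by
  unfold tent
  fun_prop

theorem tent_ne_zero {x : ℝ} (h : tent x ≠ 0) : |x| < 1 := by
  by_contra hlt
  rw [not_lt] at hlt
  apply h
  unfold tent
  exact max_eq_left (by linarith)

theorem tent_sum (x : ℝ) (N : ℕ) (hx : |x| ≤ N) :
    ∑ j ∈ Finset.Icc (-(N : ℤ)) N, tent (x - j) = 1 := by
  have hx' := abs_le.mp hx
  by_cases hN : x = N
  · rw [Finset.sum_eq_single (N : ℤ)]
    · simp [hN, tent]
    · intro j hj hjN
      by_contra hne
      have h1 := tent_ne_zero hne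
      rw [hN] at h1
      rw [Finset.mem_Icc] at hj
      have h2 : (N : ℝ) - j = ((N - j : ℤ) : ℝ) := by push_cast; ring
      rw [h2, ← Int.cast_abs] at h1
      have h3 : |(N : ℤ) - j| < 1 := by exact_mod_cast h1
      rw [abs_lt] at h3
      omega
    · intro h
      exfalso
      apply h
      rw [Finset.mem_Icc]
      omega
  · have hlt : x < N := lt_of_le_of_ne hx'.2 hN
    set k : ℤ := ⌊x⌋ with hk
    have h1 : (k : ℝ) ≤ x := Int.floor_le x
    have h2 : x < k + 1 := Int.lt_floor_add_one x
    have hk1 : -(N : ℤ) ≤ k := by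
      rw [hk, Int.le_floor]
      push_cast
      exact hx'.1
    have hk2 : k < N := by
      have : (k : ℝ) < (N : ℤ) := lt_of_le_of_lt h1 (by exact_mod_cast hlt)
      exact_mod_cast this
    have hsub : ({k, k + 1} : Finset ℤ) ⊆ Finset.Icc (-(N : ℤ)) N := by
      intro j hj
      rw [Finset.mem_insert, Finset.mem_singleton] at hj
      rw [Finset.mem_Icc]
      rcases hj with rfl | rfl <;> omega
    rw [← Finset.sum_subset hsub]
    · rw [Finset.sum_pair (by omega)]
      have e1 : tent (x - k) = 1 - (x - k) := by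
        unfold tent
        rw [abs_of_nonneg (by linarith)]
        exact max_eq_right (by linarith)
      have e2 : tent (x - ((k + 1 : ℤ) : ℝ)) = x - k := by
        unfold tent
        push_cast
        rw [abs_of_nonpos (by linarith), max_eq_right (by linarith)]
        ring
      rw [e1, e2]
      ring
    · intro j _ hj
      rw [Finset.mem_insert, Finset.mem_singleton, not_or] at hj
      by_contra hne
      have h3 := abs_lt.mp (tent_ne_zero hne)
      have h4 : (k : ℝ) < j + 1 := by linarith [h3.2]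
      have h5 : (j : ℝ) < k + 2 := by linarith [h3.1]
      have h6 : k < j + 1 := by exact_mod_cast h4
      have h7 : j < k + 2 := by exact_mod_cast h5
      omega

/-- cutoff -/
noncomputable def cut (L x : ℝ) : ℝ := max 0 (min 1 (L + 2 - |x|))

theorem continuous_cut (L : ℝ) : Continuous (cut L) := by
  unfold cut
  fun_prop

theorem cut_nonneg (L x : ℝ) : 0 ≤ cut L x := le_max_left _ _

theorem cut_le (L x : ℝ) : cut L x ≤ 1 := max_le zero_le_one (min_le_left _ _)

theorem cut_one {L x : ℝ} (h : |x| ≤ L + 1) : cut L x = 1 := by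
  unfold cut
  rw [min_eq_left (by linarith), max_eq_right zero_le_one]

theorem cut_cs (L : ℝ) : HasCompactSupport (cut L) := by
  apply HasCompactSupport.intro (K := Icc (-(L + 2)) (L + 2)) isCompact_Icc
  intro x hx
  have h1 : L + 2 < |x| := by
    by_contra hlt
    rw [not_lt, abs_le] at hlt
    exact hx ⟨hlt.1, hlt.2⟩
  unfold cut
  exact max_eq_left ((min_le_right _ _).trans (by linarith))

theorem apn (hC : T_HCT) (h1 : T_GG1) (h2 : T_GG2) (hG : T_GAM) (hL : T_LAP) : T_APN := by
  intro F H hF hH n ψ hψ hψc T hT η hη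
  -- the support
  obtain ⟨L, hL0, hLs⟩ : ∃ L : ℝ, 0 < L ∧ ∀ x : E (n + 2), (∃ i, L < |x i|) → ψ x = 0 := by
    obtain ⟨B, hB⟩ := hψc.isCompact.isBounded.exists_norm_le
    refine ⟨max B 1, lt_of_lt_of_le one_pos (le_max_right _ _), fun x ⟨i, hi⟩ => ?_⟩
    by_contra hne
    have h3 := hB x (subset_tsupport _ hne)
    have h4 : |x i| ≤ B := (le_trans (PiLp.norm_apply_le x i) h3 : ‖x i‖ ≤ B)
    have := le_max_left B 1
    linarith
  -- the majorant
  let th : X → ℝ := fun p => cut L p.1 * cut L p.2
  have hthc : Continuous th := by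
    have := continuous_cut L
    fun_prop
  have hthcs : HasCompactSupport th := by
    apply HasCompactSupport.intro (K := Icc (-(L + 2)) (L + 2) ×ˢ Icc (-(L + 2)) (L + 2))
      (isCompact_Icc.prod isCompact_Icc)
    intro p hp
    by_contra hne
    apply hp
    have hne2 := mul_ne_zero_iff.mp hne
    have key : ∀ x, cut L x ≠ 0 → x ∈ Icc (-(L + 2)) (L + 2) := by
      intro x hx
      by_contra hmem
      apply hx
      have h3 : L + 2 < |x| := by
        by_contra hlt
        rw [not_lt, abs_le] at hlt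
        exact hmem ⟨hlt.1, hlt.2⟩
      unfold cut
      exact max_eq_left ((min_le_right _ _).trans (by linarith))
    exact ⟨key _ hne2.1, key _ hne2.2⟩
  have hth0 : ∀ p, 0 ≤ th p := fun p => mul_nonneg (cut_nonneg _ _) (cut_nonneg _ _)
  obtain ⟨hs1, hs2, hs3, -⟩ := unf F hF (fun _ => 0) continuous_const (fun _ => rfl) th hthc hthcs
  obtain ⟨M, hM, hMb⟩ := bdd_static hs1 hs2 hs3
  set om : ℝ := η / (3 * M) with hom
  have homp : 0 < om := by positivity
  let Th : E (n + 2) → ℝ := PP th (fun _ => cut L)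
  have hTh0 : ∀ x, 0 ≤ Th x := fun x =>
    mul_nonneg (hth0 _) (Finset.prod_nonneg fun i _ => cut_nonneg _ _)
  have hcutabs : ∀ x, |cut L x| ≤ 1 := fun x => by
    rw [abs_of_nonneg (cut_nonneg _ _)]
    exact cut_le _ _
  have hThGood : Good F H n Th := by
    refine ⟨?_, ?_, appr_PP hL hG h1 h2 hF hH th _ hthc hthcs (fun _ => continuous_cut L)
      (fun _ => cut_cs L) (fun _ x => hcutabs x)⟩
    · exact (hthc.comp (continuous_pX (n := n))).mul
        (continuous_finsetProd _ fun i _ => (continuous_cut L).comp (by fun_prop))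
    · have hK : IsCompact ((splHomeo (n := n)).symm '' ((Icc (-(L + 2)) (L + 2) ×ˢ
          Icc (-(L + 2)) (L + 2)) ×ˢ (Set.pi univ fun _ => Icc (-(L + 2)) (L + 2)))) :=
        ((isCompact_Icc.prod isCompact_Icc).prod (isCompact_univ_pi fun _ => isCompact_Icc)).image
          (splHomeo (n := n)).symm.continuous
      apply HasCompactSupport.intro hK
      intro x hx
      by_contra hne
      apply hx
      have hne2 := mul_ne_zero_iff.mp hne
      have hne3 := mul_ne_zero_iff.mp hne2.1
      have hne4 := Finset.prod_ne_zero_iff.mp hne2.2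
      have key : ∀ x, cut L x ≠ 0 → x ∈ Icc (-(L + 2)) (L + 2) := by
        intro x hx
        by_contra hmem
        apply hx
        have h3 : L + 2 < |x| := by
          by_contra hlt
          rw [not_lt, abs_le] at hlt
          exact hmem ⟨hlt.1, hlt.2⟩
        unfold cut
        exact max_eq_left ((min_le_right _ _).trans (by linarith))
      refine ⟨spl x, ⟨⟨key _ hne3.1, key _ hne3.2⟩, fun i _ => key _ (hne4 i (Finset.mem_univ i))⟩, ?_⟩
      exact mk_spl x
  have hsumTh : ∀ x, ∑' k : ℤ, Th ((gam n ^ k) x) ≤ M := by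
    intro x
    have h3 := tsum_PP (n := n) hG th (fun _ => cut L) x
    change ∑' k : ℤ, PP th (fun _ => cut L) ((gam n ^ k) x) ≤ M
    rw [h3]
    have h4 : ∑' k : ℤ, th (gk k (pX x)) ≤ M := (le_abs_self _).trans (hMb _)
    have h5 : 0 ≤ ∏ i : Fin n, cut L (x i.succ.succ) := Finset.prod_nonneg fun i _ => cut_nonneg _ _
    have h6 : ∏ i : Fin n, cut L (x i.succ.succ) ≤ 1 :=
      Finset.prod_le_one (fun i _ => cut_nonneg _ _) fun i _ => cut_le _ _
    calc (∑' k : ℤ, th (gk k (pX x))) * ∏ i : Fin n, cut L (x i.succ.succ)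
        ≤ M * ∏ i : Fin n, cut L (x i.succ.succ) := by gcongr
      _ ≤ M * 1 := by gcongr
      _ = M := mul_one _
  have hintTh : ∀ t, 0 < t → ∀ x, ∫ z : E (n + 2), Hn H t x z * Th z * F (z 0) ≤ M := by
    intro t ht x
    change ∫ z : E (n + 2), Hn H t x z * PP th (fun _ => cut L) z * F (z 0) ≤ M
    rw [integral_Hn_PP ht]
    have h3 := hC F H hF hH th hthc hthcs M hMb t ht (pX x)
    have h4 : |∏ i : Fin n, GG t (cut L) (x i.succ.succ)| ≤ 1 := by
      rw [Finset.abs_prod]
      refine Finset.prod_le_one (fun i _ => abs_nonneg _) fun i _ => ?_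
      exact h1.bdd t ht (cut L) 1 (continuous_cut L).measurable hcutabs _
    refine (le_abs_self _).trans ?_
    rw [abs_mul]
    calc |∫ q : X, H t (pX x) q * th q * F q.1| * |∏ i : Fin n, GG t (cut L) (x i.succ.succ)|
        ≤ M * 1 := by gcongr
      _ = M := mul_one _
  -- uniform continuity
  obtain ⟨δ, hδ, hδu⟩ : ∃ δ > 0, ∀ a b : Fin (n + 2) → ℝ, dist a b < δ →
      |ψ (WithLp.toLp 2 a) - ψ (WithLp.toLp 2 b)| < om := by
    have h3 : Continuous fun a : Fin (n + 2) → ℝ => ψ (WithLp.toLp 2 a) :=
      hψ.comp (PiLp.continuous_toLp 2 _)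
    have h4 : HasCompactSupport fun a : Fin (n + 2) → ℝ => ψ (WithLp.toLp 2 a) := by
      apply HasCompactSupport.intro (K := Set.pi univ fun _ => Icc (-L) L)
        (isCompact_univ_pi fun _ => isCompact_Icc)
      intro a ha
      apply hLs
      by_contra hcon
      push Not at hcon
      apply ha
      intro i _
      exact ⟨(abs_le.mp (hcon i)).1, (abs_le.mp (hcon i)).2⟩
    have h5 := h4.uniformContinuous_of_continuous h3
    rw [Metric.uniformContinuous_iff] at h5
    obtain ⟨δ, hδ, h6⟩ := h5 om homp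
    exact ⟨δ, hδ, fun a b hab => h6 hab⟩
  set ρ : ℝ := min δ 1 / 2 with hρ
  have hρp : 0 < ρ := by
    have : 0 < min δ 1 := lt_min hδ one_pos
    positivity
  have hρδ : ρ < δ := by
    have h3 : 0 < min δ 1 := lt_min hδ one_pos
    have h4 := min_le_left δ 1
    rw [hρ]
    linarith
  have hρ1 : ρ < 1 := by
    have h4 := min_le_right δ 1
    rw [hρ]
    linarith
  obtain ⟨N, hN⟩ := exists_nat_gt ((L + 1) / ρ)
  rw [div_lt_iff₀ hρp] at hN
  -- the approximating function
  let box : Finset (Fin n → ℤ) := Fintype.piFinset fun _ => Finset.Icc (-(N : ℤ)) N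
  let fj : (Fin n → ℤ) → X → ℝ := fun j p => ψ (mk p fun i => ρ * j i)
  let gj : (Fin n → ℤ) → Fin n → ℝ → ℝ := fun j i z => tent (z / ρ - j i)
  have hfjc : ∀ j, Continuous (fj j) := by
    intro j
    have h3 : Continuous fun p : X => (splHomeo (n := n)).symm (p, fun i => ρ * (j i : ℝ)) :=
      (splHomeo (n := n)).symm.continuous.comp (by fun_prop)
    exact hψ.comp h3
  have hfjs : ∀ j, HasCompactSupport (fj j) := by
    intro j
    apply HasCompactSupport.intro (K := Icc (-L) L ×ˢ Icc (-L) L)
      (isCompact_Icc.prod isCompact_Icc)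
    intro p hp
    apply hLs
    by_contra hcon
    push Not at hcon
    apply hp
    have e1 := hcon 0
    have e2 := hcon 1
    rw [mk_zero] at e1
    rw [mk_one] at e2
    exact ⟨⟨(abs_le.mp e1).1, (abs_le.mp e1).2⟩, ⟨(abs_le.mp e2).1, (abs_le.mp e2).2⟩⟩
  have hgjc : ∀ j i, Continuous (gj j i) := by
    intro j i
    exact continuous_tent.comp (by fun_prop)
  have hgjs : ∀ j i, HasCompactSupport (gj j i) := by
    intro j i
    apply HasCompactSupport.intro (K := Icc (ρ * (j i - 1)) (ρ * (j i + 1))) isCompact_Icc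
    intro z hz
    by_contra hne
    apply hz
    have h3 := abs_lt.mp (tent_ne_zero hne)
    constructor
    · have h4 : (j i : ℝ) - 1 ≤ z / ρ := by linarith [h3.1]
      rw [le_div_iff₀ hρp] at h4
      linarith
    · have h4 : z / ρ ≤ (j i : ℝ) + 1 := by linarith [h3.2]
      rw [div_le_iff₀ hρp] at h4
      linarith
  have hgjb : ∀ j i x, |gj j i x| ≤ 1 := by
    intro j i x
    simp only [gj]
    rw [abs_of_nonneg (tent_nonneg _)]
    exact tent_le _
  let φ : E (n + 2) → ℝ := fun x => ∑ j ∈ box, PP (fj j) (gj j) x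
  have hφGood : Good F H n φ := by
    apply good_sum hL hG hF hH
    intro j _
    refine ⟨?_, ?_, appr_PP hL hG h1 h2 hF hH _ _ (hfjc j) (hfjs j) (hgjc j) (hgjs j) (hgjb j)⟩
    · have h3 := continuous_pX (n := n)
      have h4 := hfjc j
      have h5 := hgjc j
      unfold PP
      refine (h4.comp h3).mul (continuous_finsetProd _ fun i _ => (h5 i).comp (by fun_prop))
    · have hK : IsCompact ((splHomeo (n := n)).symm '' (tsupport (fj j) ×ˢ
          (Set.pi univ fun i => tsupport (gj j i)))) :=
        ((hfjs j).isCompact.prod (isCompact_univ_pi fun i => (hgjs j i).isCompact)).image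
          (splHomeo (n := n)).symm.continuous
      apply HasCompactSupport.intro hK
      intro x hx
      by_contra hne
      apply hx
      have hne2 := mul_ne_zero_iff.mp hne
      have hne4 := Finset.prod_ne_zero_iff.mp hne2.2
      refine ⟨spl x, ⟨subset_tsupport _ hne2.1,
        fun i _ => subset_tsupport _ (hne4 i (Finset.mem_univ i))⟩, ?_⟩
      exact mk_spl x
  -- the distance
  have hclose : ∀ (x : E (n + 2)) (j : Fin n → ℤ), (∏ i, gj j i (x i.succ.succ)) ≠ 0 →
      (∀ i, |x i.succ.succ - ρ * j i| < ρ) := by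
    intro x j hne i
    have h3 := Finset.prod_ne_zero_iff.mp hne i (Finset.mem_univ i)
    have h4 := tent_ne_zero h3
    have h5 : x i.succ.succ - ρ * j i = ρ * (x i.succ.succ / ρ - j i) := by
      field_simp
    rw [h5, abs_mul, abs_of_pos hρp]
    nlinarith
  have hdiff : ∀ x, |φ x - ψ x| ≤ om * Th x := by
    intro x
    by_cases hbox : ∀ i, |x i| ≤ L + 1
    · have hTh1 : Th x = 1 := by
        simp only [Th, PP, th, pX]
        rw [cut_one (hbox 0), cut_one (hbox 1), Finset.prod_eq_one fun i _ => cut_one (hbox _)]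
        norm_num
      rw [hTh1, mul_one]
      have hone : ∑ j ∈ box, ∏ i, gj j i (x i.succ.succ) = 1 := by
        have h3 := Finset.prod_univ_sum (fun _ : Fin n => Finset.Icc (-(N : ℤ)) N)
          (fun i (k : ℤ) => tent (x i.succ.succ / ρ - k))
        simp only [gj, box]
        rw [← h3]
        refine Finset.prod_eq_one fun i _ => tent_sum _ N ?_
        rw [abs_div, abs_of_pos hρp, div_le_iff₀ hρp]
        exact (hbox _).trans hN.le
      have h3 : φ x - ψ x = ∑ j ∈ box, (fj j (pX x) - ψ x) * ∏ i, gj j i (x i.succ.succ) := by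
        simp only [φ, PP, sub_mul, Finset.sum_sub_distrib, ← Finset.mul_sum]
        rw [hone, mul_one]
      rw [h3]
      refine (Finset.abs_sum_le_sum_abs _ _).trans ?_
      have h4 : ∀ j ∈ box, |(fj j (pX x) - ψ x) * ∏ i, gj j i (x i.succ.succ)|
          ≤ om * ∏ i, gj j i (x i.succ.succ) := by
        intro j _
        have hnn : 0 ≤ ∏ i, gj j i (x i.succ.succ) := Finset.prod_nonneg fun i _ => tent_nonneg _
        by_cases hz : ∏ i, gj j i (x i.succ.succ) = 0
        · rw [hz, mul_zero, mul_zero, abs_zero]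
        · rw [abs_mul, abs_of_nonneg hnn]
          have hcl := hclose x j hz
          have h5 : |fj j (pX x) - ψ x| ≤ om := by
            have h6 := hδu (WithLp.ofLp (mk (pX x) fun i => ρ * (j i : ℝ))) (WithLp.ofLp x) ?_
            · exact h6.le
            · refine lt_of_le_of_lt ?_ hρδ
              rw [dist_pi_le_iff hρp.le]
              intro i
              refine Fin.cases ?_ (fun i => ?_) i
              · rw [mk_zero]
                simp [pX, hρp.le]
              · refine Fin.cases ?_ (fun i => ?_) i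
                · have : mk (pX x) (fun i => ρ * (j i : ℝ)) (Fin.succ 0) = x (Fin.succ 0) := rfl
                  rw [this]
                  simp [hρp.le]
                · rw [mk_ss, Real.dist_eq, abs_sub_comm]
                  exact (hcl i).le
          gcongr
      refine (Finset.sum_le_sum h4).trans ?_
      rw [← Finset.mul_sum, hone, mul_one]
    · push Not at hbox
      obtain ⟨i, hi⟩ := hbox
      have hψ0 : ψ x = 0 := hLs x ⟨i, by linarith⟩
      have hφ0 : φ x = 0 := by
        apply Finset.sum_eq_zero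
        intro j _
        unfold PP
        by_cases hz : ∏ i, gj j i (x i.succ.succ) = 0
        · rw [hz, mul_zero]
        · have hcl := hclose x j hz
          have h5 : fj j (pX x) = 0 := by
            apply hLs
            refine ⟨i, ?_⟩
            revert hi
            refine Fin.cases ?_ (fun i => ?_) i
            · intro hi
              rw [mk_zero]
              have : (pX x).1 = x 0 := rfl
              rw [this]
              linarith
            · refine Fin.cases ?_ (fun i => ?_) i
              · intro hi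
                have : mk (pX x) (fun i => ρ * (j i : ℝ)) (Fin.succ 0) = x (Fin.succ 0) := rfl
                rw [this]
                linarith
              · intro hi
                rw [mk_ss]
                have h6 := hcl i
                have h7 := abs_sub_abs_le_abs_sub (x i.succ.succ) (ρ * j i)
                linarith
          rw [h5, zero_mul]
      rw [hψ0, hφ0, sub_zero, abs_zero]
      exact mul_nonneg homp.le (hTh0 x)
  have homM : om * M = η / 3 := by
    rw [hom]
    field_simp
  obtain ⟨u, hu, hu0, hut⟩ := hφGood.appr T hT (η / 3) (by positivity)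
  refine ⟨u, hu, ?_, ?_⟩
  · intro x
    have h3 : ‖∑' k : ℤ, (φ ((gam n ^ k) x) - ψ ((gam n ^ k) x))‖ ≤
        om * ∑' k : ℤ, Th ((gam n ^ k) x) := by
      refine tsum_of_norm_bounded ((summable_gam hG hThGood.cs x).hasSum.mul_left om) ?_
      intro k
      exact hdiff _
    rw [(summable_gam hG hφGood.cs x).tsum_sub (summable_gam hG hψc x), Real.norm_eq_abs] at h3
    have h4 : om * ∑' k : ℤ, Th ((gam n ^ k) x) ≤ η / 3 := by
      rw [← homM]
      exact mul_le_mul_of_nonneg_left (hsumTh x) homp.le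
    have h5 := hu0 x
    rw [abs_le] at *
    constructor <;> linarith [h3.1, h3.2, h5.1, h5.2]
  · intro t ht x
    have i1 := integrable_Hn hF hH ht.1 x hφGood.cont hφGood.cs
    have i2 := integrable_Hn hF hH ht.1 x hψ hψc
    have i3 := integrable_Hn hF hH ht.1 x hThGood.cont hThGood.cs
    have h3 : |(∫ z : E (n + 2), Hn H t x z * φ z * F (z 0)) -
        ∫ z : E (n + 2), Hn H t x z * ψ z * F (z 0)| ≤
        om * ∫ z : E (n + 2), Hn H t x z * Th z * F (z 0) := by
      rw [← integral_sub i1 i2, ← integral_const_mul]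
      have hb : ∀ z : E (n + 2), ‖Hn H t x z * φ z * F (z 0) - Hn H t x z * ψ z * F (z 0)‖ ≤
          om * (Hn H t x z * Th z * F (z 0)) := by
        intro z
        have hHn : 0 ≤ Hn H t x z := by
          unfold Hn
          refine mul_nonneg (hH.nn t ht.1 _ _) ?_
          rw [En_eq t ht.1]
          exact Finset.prod_nonneg fun i _ => (h1.pos t ht.1 _).le
        have hFz : 0 ≤ F (z 0) := (hF.pos _).le
        have h4 : Hn H t x z * φ z * F (z 0) - Hn H t x z * ψ z * F (z 0)
            = Hn H t x z * F (z 0) * (φ z - ψ z) := by ring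
        rw [h4, Real.norm_eq_abs, abs_mul, abs_of_nonneg (mul_nonneg hHn hFz)]
        have h5 := hdiff z
        have h6 := mul_le_mul_of_nonneg_left h5 (mul_nonneg hHn hFz)
        linarith
      exact norm_integral_le_of_norm_le (i3.const_mul om) (Eventually.of_forall hb)
    have h4 : om * ∫ z : E (n + 2), Hn H t x z * Th z * F (z 0) ≤ η / 3 := by
      rw [← homM]
      exact mul_le_mul_of_nonneg_left (hintTh t ht.1 x) homp.le
    have h5 := hut t ht x
    rw [abs_le] at *
    constructor <;> linarith [h3.1, h3.2, h5.1, h5.2]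

end Pool.Agent.H30.HK
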