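import Pool.Agent.H96.HK.Basic

/-!
Module UNF for MP_e94f6f_an (helper96): unfolding.
-/

open MeasureTheory Set Filter Topology
open Pool.Agent.H96.HK

namespace Pool.Agent.H30.HK

theorem zpow_or (k : ℤ) : (-1 : ℝ) ^ k = 1 ∨ (-1 : ℝ) ^ k = -1 := by
  rcases Int.even_or_odd k with h | h
  · exact Or.inl h.neg_one_zpow
  · exact Or.inr h.neg_one_zpow

/-- only finitely many translates matter -/
theorem finite_translates {ψ : X → ℝ} (hψ : HasCompactSupport ψ) (M : ℝ) :
    ∃ T : Finset ℤ, ∀ p : X, |p.2| ≤ M → ∀ k ∉ T, ψ (gk k p) = 0 := by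
  obtain ⟨B, hB⟩ := hψ.isCompact.isBounded.exists_norm_le
  obtain ⟨K0, hK0⟩ := exists_nat_gt ((B + M + 1) * 2 / Real.pi)
  have hpi := Real.pi_pos
  refine ⟨Finset.Icc (-(K0 : ℤ)) K0, fun p hp k hk => ?_⟩
  by_contra hne
  have h1 := hB (gk k p) (subset_tsupport _ hne)
  have h2 : |(gk k p).2| ≤ B := (le_trans (norm_snd_le _) h1 : ‖(gk k p).2‖ ≤ B)
  rw [gk_snd] at h2
  have h3 : |(k : ℝ) * (Real.pi / 2)| ≤ B + M := by
    calc |(k : ℝ) * (Real.pi / 2)| = |(p.2 + k * (Real.pi / 2)) - p.2| := by ring_nf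
      _ ≤ |p.2 + k * (Real.pi / 2)| + |p.2| := abs_sub _ _
      _ ≤ B + M := add_le_add h2 hp
  rw [abs_mul, abs_of_pos (show 0 < Real.pi / 2 by positivity)] at h3
  have h4 : |(k : ℝ)| < K0 := by
    refine lt_of_le_of_lt ?_ hK0
    rw [le_div_iff₀ hpi]
    nlinarith
  apply hk
  rw [Finset.mem_Icc]
  have h5 := abs_lt.mp h4
  constructor
  · have : (-(K0 : ℝ)) < k := h5.1
    have : (-(K0 : ℤ)) < k := by exact_mod_cast this
    omega
  · have : (k : ℝ) < K0 := h5.2
    have : k < (K0 : ℤ) := by exact_mod_cast this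
    omega

theorem measurePreserving_gk (k : ℤ) : MeasurePreserving (gk k) (volume : Measure X) volume := by
  have h1 : MeasurePreserving (fun x : ℝ => (-1 : ℝ) ^ k * x) volume volume := by
    rcases zpow_or k with h | h
    · simp only [h, one_mul]
      exact MeasurePreserving.id _
    · simp only [h, neg_mul, one_mul]
      exact Measure.measurePreserving_neg volume
  have h2 : MeasurePreserving (fun y : ℝ => y + k * (Real.pi / 2)) volume volume :=
    measurePreserving_add_right volume _
  have := h1.prod h2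
  exact this

noncomputable def gkHomeo (k : ℤ) : X ≃ₜ X where
  toFun := gk k
  invFun := gk (-k)
  left_inv p := gk_neg_gk k p
  right_inv p := gk_gk_neg k p
  continuous_toFun := continuous_gk k
  continuous_invFun := continuous_gk (-k)

theorem measurableEmbedding_gk (k : ℤ) : MeasurableEmbedding (gk k) :=
  (gkHomeo k).measurableEmbedding

/-- the strips -/
def strip (k : ℤ) : Set X :=
  {z | z.2 ∈ Ioc ((k : ℝ) * (Real.pi / 2)) (((k : ℝ) + 1) * (Real.pi / 2))}

theorem measurableSet_strip (k : ℤ) : MeasurableSet (strip k) :=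
  measurable_snd measurableSet_Ioc

theorem iUnion_strip : ⋃ k, strip k = univ := by
  ext z
  simp only [mem_iUnion, mem_univ, iff_true]
  have hpi : 0 < Real.pi / 2 := by positivity
  refine ⟨⌈z.2 / (Real.pi / 2)⌉ - 1, ?_, ?_⟩
  · have := Int.ceil_lt_add_one (z.2 / (Real.pi / 2))
    push_cast
    rw [← lt_div_iff₀ hpi]
    linarith
  · have := Int.le_ceil (z.2 / (Real.pi / 2))
    push_cast
    rw [← div_le_iff₀ hpi]
    linarith

theorem pairwise_strip : Pairwise (Function.onFun Disjoint strip) := by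
  intro j k hjk
  rw [Function.onFun, Set.disjoint_left]
  rintro z ⟨h1, h2⟩ ⟨h3, h4⟩
  have hpi : 0 < Real.pi / 2 := by positivity
  apply hjk
  have h5 : (j : ℝ) < k + 1 := lt_of_mul_lt_mul_right (lt_of_lt_of_le h1 h4) hpi.le
  have h6 : (k : ℝ) < j + 1 := lt_of_mul_lt_mul_right (lt_of_lt_of_le h3 h2) hpi.le
  have h7 : j < k + 1 := by exact_mod_cast h5
  have h8 : k < j + 1 := by exact_mod_cast h6
  omega

theorem preimage_strip (k : ℤ) : gk k ⁻¹' strip k = strip 0 := by
  ext z
  simp only [strip, mem_preimage, mem_ofPred_eq, gk_snd, mem_Ioc, Int.cast_zero, zero_mul,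
    zero_add, one_mul]
  constructor
  · rintro ⟨h1, h2⟩
    constructor <;> linarith
  · rintro ⟨h1, h2⟩
    constructor <;> linarith

theorem strip_zero : strip 0 = {z : X | z.2 ∈ Ioc 0 (Real.pi / 2)} := by
  ext z
  simp [strip]

theorem unf : T_UNF := by
  intro F hF u hu hinv ψ hψ hc
  have hpi : 0 < Real.pi / 2 := by positivity
  have hloc : ∀ M : ℝ, ∃ T : Finset ℤ, ∀ p : X, |p.2| ≤ M →
      ∑' k : ℤ, ψ (gk k p) = ∑ k ∈ T, ψ (gk k p) := by
    intro M
    obtain ⟨T, hT⟩ := finite_translates hc M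
    exact ⟨T, fun p hp => tsum_eq_sum (hT p hp)⟩
  refine ⟨?_, ?_, ?_, ?_⟩
  · rw [continuous_iff_continuousAt]
    intro p0
    obtain ⟨T, hT⟩ := hloc (|p0.2| + 1)
    have h1 : ContinuousAt (fun p : X => ∑ k ∈ T, ψ (gk k p)) p0 :=
      (continuous_finsetSum _ fun k _ => hψ.comp (continuous_gk k)).continuousAt
    refine h1.congr ?_
    have h2 : ∀ᶠ p : X in 𝓝 p0, |p.2| < |p0.2| + 1 :=
      (continuous_snd.abs.continuousAt (x := p0)).eventually (gt_mem_nhds (by simp))
    filter_upwards [h2] with p hp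
    exact (hT p hp.le).symm
  · intro p
    have h1 : ∀ k : ℤ, ψ (gk k (g0 p)) = ψ (gk ((Equiv.addRight (1 : ℤ)) k) p) := by
      intro k
      rw [← gk_one, ← gk_add]
      rfl
    simp only [h1]
    exact Equiv.tsum_eq (Equiv.addRight (1 : ℤ)) (fun k => ψ (gk k p))
  · obtain ⟨B, hB⟩ := hc.isCompact.isBounded.exists_norm_le
    refine ⟨B + 1, fun p hp => ?_⟩
    have : ∀ k : ℤ, ψ (gk k p) = 0 := by
      intro k
      by_contra hne
      have h1 := hB (gk k p) (subset_tsupport _ hne)
      have h2 : |(gk k p).1| ≤ B := (le_trans (norm_fst_le _) h1 : ‖(gk k p).1‖ ≤ B)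
      rw [abs_gk_fst] at h2
      linarith
    simp [this]
  · have hG : Continuous (fun z : X => u z * ψ z * F z.1) :=
      (hu.mul hψ).mul (hF.continuous.comp continuous_fst)
    have hGc : HasCompactSupport (fun z : X => u z * ψ z * F z.1) :=
      (hc.mul_left (f := u)).mul_right
    have hGi : Integrable (fun z : X => u z * ψ z * F z.1) :=
      hG.integrable_of_hasCompactSupport hGc
    obtain ⟨T, hT⟩ := finite_translates hc (Real.pi / 2)
    have hev : ∀ (k : ℤ) (z : X), u (gk k z) * ψ (gk k z) * F (gk k z).1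
        = u z * ψ (gk k z) * F z.1 := by
      intro k z
      rw [hinv.gk k z]
      congr 1
      rw [gk_fst]
      rcases zpow_or k with h | h
      · rw [h, one_mul]
      · rw [h, neg_mul, one_mul, hF.even]
    have hpiece : ∀ k : ℤ, ∫ z in strip k, u z * ψ z * F z.1
        = ∫ z in strip 0, u z * ψ (gk k z) * F z.1 := by
      intro k
      rw [← (measurePreserving_gk k).setIntegral_preimage_emb (measurableEmbedding_gk k),
        preimage_strip]
      exact integral_congr_ae (Filter.Eventually.of_forall fun z => hev k z)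
    have hz : ∀ z ∈ strip 0, |z.2| ≤ Real.pi / 2 := by
      intro z hz
      rw [strip_zero] at hz
      rw [abs_of_pos hz.1]
      exact hz.2
    have h0 : ∀ k ∉ T, ∫ z in strip 0, u z * ψ (gk k z) * F z.1 = 0 := by
      intro k hk
      apply setIntegral_eq_zero_of_forall_eq_zero
      intro z hz'
      rw [hT z (hz z hz') k hk]
      ring
    have hsum : ∫ z : X, u z * ψ z * F z.1 = ∑ k ∈ T, ∫ z in strip 0, u z * ψ (gk k z) * F z.1 := by
      rw [← setIntegral_univ, ← iUnion_strip,
        integral_iUnion measurableSet_strip pairwise_strip hGi.integrableOn]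
      simp only [hpiece]
      exact tsum_eq_sum h0
    have hint : ∀ k ∈ T, IntegrableOn (fun z : X => u z * ψ (gk k z) * F z.1) (strip 0) := by
      intro k _
      have h1 : Integrable (fun z : X => u (gk k z) * ψ (gk k z) * F (gk k z).1) := by
        exact (measurePreserving_gk k).integrable_comp_of_integrable hGi
      simp only [hev] at h1
      exact h1.integrableOn
    rw [hsum, ← integral_finsetSum _ hint, strip_zero]
    apply setIntegral_congr_fun
    · rw [← strip_zero]
      exact measurableSet_strip 0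
    · intro z hz'
      rw [← strip_zero] at hz'
      simp only
      rw [tsum_eq_sum (hT z (hz z hz')), Finset.mul_sum, Finset.sum_mul]

end Pool.Agent.H30.HK
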