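import Pool.Agent.H30.HK.PRD
import Pool.Agent.H30.HK.UNF

/-!
MP_e94f6f_an (helper96), module APN, first part: approximability, products and sums.
-/

open MeasureTheory Set Filter Topology
open scoped ContDiff
open Pool.Agent.H96.HK

namespace Pool.Agent.H30.HK

variable {n : ℕ}

/-! ### boundedness -/

theorem exists_shift (p : X) : ∃ k : ℤ, (gk k p).2 ∈ Icc 0 (Real.pi / 2) ∧ |(gk k p).1| = |p.1| := by
  have hpi : 0 < Real.pi / 2 := by positivity
  refine ⟨-⌊p.2 / (Real.pi / 2)⌋, ?_, abs_gk_fst _ _⟩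
  have h1 := Int.sub_floor_div_mul_nonneg p.2 hpi
  have h2 := Int.sub_floor_div_mul_lt p.2 hpi
  rw [gk_snd]
  push_cast
  constructor
  · linarith
  · linarith

theorem bdd_family (u : ℝ → X → ℝ) (S : Set ℝ) (hS : IsCompact S)
    (hc : ContinuousOn (fun z : ℝ × X => u z.1 z.2) (S ×ˢ univ))
    (hinv : ∀ t ∈ S, GInv (u t)) (hv : ∃ R, ∀ t ∈ S, ∀ p : X, R ≤ |p.1| → |u t p| ≤ 1) :
    ∃ B, 0 < B ∧ ∀ t ∈ S, ∀ p, |u t p| ≤ B := by
  obtain ⟨R, hR⟩ := hv
  have hK : IsCompact (S ×ˢ (Icc (-R) R ×ˢ Icc 0 (Real.pi / 2)) : Set (ℝ × X)) :=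
    hS.prod (isCompact_Icc.prod isCompact_Icc)
  obtain ⟨C, hC⟩ := hK.exists_bound_of_continuousOn
    (f := fun z : ℝ × X => u z.1 z.2) (hc.mono (prod_mono le_rfl (subset_univ _)))
  refine ⟨max C 1, lt_of_lt_of_le one_pos (le_max_right _ _), fun t ht p => ?_⟩
  by_cases hp : R ≤ |p.1|
  · exact (hR t ht p hp).trans (le_max_right _ _)
  · obtain ⟨k, hk1, hk2⟩ := exists_shift p
    rw [← (hinv t ht).gk k p]
    rw [not_le, ← hk2, abs_lt] at hp
    have h1 := hC (t, gk k p) ⟨ht, ⟨⟨hp.1.le, hp.2.le⟩, hk1⟩⟩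
    exact (h1 : |u t (gk k p)| ≤ C).trans (le_max_left _ _)

theorem bdd_nice {F : ℝ → ℝ} {u : ℝ → X → ℝ} (hu : Nice F u) {T : ℝ} (hT : 0 < T) :
    ∃ B, 0 < B ∧ ∀ t ∈ Icc 0 T, ∀ p, |u t p| ≤ B := by
  refine bdd_family u (Icc 0 T) isCompact_Icc
    (hu.cont.mono (prod_mono (fun t ht => ht.1) le_rfl)) (fun t ht => hu.inv t ht.1) ?_
  exact hu.dec T hT 1 one_pos

theorem bdd_static {f : X → ℝ} (hf : Continuous f) (hinv : GInv f)
    (hv : ∃ R, ∀ p : X, R ≤ |p.1| → f p = 0) : ∃ B, 0 < B ∧ ∀ p, |f p| ≤ B := by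
  obtain ⟨B, hB, h⟩ := bdd_family (fun _ => f) {0} isCompact_singleton
    (hf.comp continuous_snd).continuousOn (fun t _ => hinv) (by
      obtain ⟨R, hR⟩ := hv
      exact ⟨R, fun t _ p hp => by rw [hR p hp]; simp⟩)
  exact ⟨B, hB, fun p => h 0 rfl p⟩

/-! ### the factors in the flat directions -/

/-- the one-dimensional evolution -/
noncomputable def ww (g : ℝ → ℝ) (t z : ℝ) : ℝ := if t = 0 then g z else GG t g z

theorem ww_of_pos (g : ℝ → ℝ) {t : ℝ} (ht : 0 < t) : ww g t = GG t g := by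
  funext z
  simp [ww, ht.ne']

theorem ww_zero (g : ℝ → ℝ) : ww g 0 = g := by
  funext z
  simp [ww]

theorem ww_le (h1 : T_GG1) {g : ℝ → ℝ} (hg : Continuous g) (hb : ∀ x, |g x| ≤ 1) {t : ℝ}
    (ht : 0 ≤ t) (z : ℝ) : |ww g t z| ≤ 1 := by
  rcases eq_or_lt_of_le ht with rfl | ht
  · rw [ww_zero]
    exact hb z
  · rw [ww_of_pos g ht]
    exact h1.bdd t ht g 1 hg.measurable hb z

theorem ww_cont (h1 : T_GG1) {g : ℝ → ℝ} (hg : Continuous g) (hb : ∀ x, |g x| ≤ 1) :
    ContinuousOn (fun z : ℝ × ℝ => ww g z.1 z.2) (Ici 0 ×ˢ univ) :=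
  h1.init g 1 hg hb

theorem ww_tail (h1 : T_GG1) {g : ℝ → ℝ} (hg : Continuous g) (hb : ∀ x, |g x| ≤ 1)
    (hc : HasCompactSupport g) {T : ℝ} (hT : 0 < T) {ε : ℝ} (hε : 0 < ε) :
    ∃ R, ∀ t ∈ Icc 0 T, ∀ z, R ≤ |z| → |ww g t z| ≤ ε := by
  obtain ⟨L, hL⟩ := hc.isCompact.isBounded.exists_norm_le
  have hL' : ∀ r, g r ≠ 0 → |r| ≤ L := fun r hr => hL r (subset_tsupport _ hr)
  set D : ℝ := 1 + 16 * T / ε with hD
  have hDp : 0 < D := by positivity
  refine ⟨L + D, fun t ht z hz => ?_⟩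
  rcases eq_or_lt_of_le ht.1 with h0 | ht0
  · rw [← h0, ww_zero]
    have : g z = 0 := by
      by_contra hne
      have := hL' z hne
      linarith
    rw [this, abs_zero]
    exact hε.le
  · rw [ww_of_pos g ht0]
    have hint : Integrable (fun r => gg t (z - r)) := (h1.int t ht0).1.comp_sub_left z
    have hpt : ∀ r, |gg t (z - r) * g r| ≤ indicator {x | D ≤ |x|} (gg t) (z - r) := by
      intro r
      have hpos := h1.pos t ht0 (z - r)
      by_cases hr : g r = 0
      · rw [hr, mul_zero, abs_zero]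
        exact indicator_nonneg (fun x _ => (h1.pos t ht0 x).le) _
      · have h2 := hL' r hr
        have h3 : D ≤ |z - r| := by
          have := abs_sub_abs_le_abs_sub z r
          linarith
        rw [indicator_of_mem (show z - r ∈ {x : ℝ | D ≤ |x|} from h3), abs_mul,
          abs_of_pos hpos]
        have := hb r
        nlinarith
    have hms : MeasurableSet {x : ℝ | D ≤ |x|} := measurableSet_le measurable_const
      continuous_abs.measurable
    have hind : Integrable (indicator {x | D ≤ |x|} (gg t)) := (h1.int t ht0).1.indicator hms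
    have h4 : |GG t g z| ≤ ∫ r, indicator {x | D ≤ |x|} (gg t) (z - r) := by
      unfold GG
      have hpt2 : ∀ r, ‖gg t (z - r) * g r‖ ≤ indicator {x | D ≤ |x|} (gg t) (z - r) := hpt
      exact norm_integral_le_of_norm_le (hind.comp_sub_left z) (Eventually.of_forall hpt2)
    rw [integral_sub_left_eq_self (fun x => indicator {x | D ≤ |x|} (gg t) x) volume z,
      integral_indicator hms] at h4
    have h5 := h1.tail t ht0 D hDp.le
    have h6 : 2 * Real.exp (-(D ^ 2 / (8 * t))) ≤ ε := by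
      have hy : 2 / ε ≤ D ^ 2 / (8 * t) := by
        rw [div_le_div_iff₀ hε (by positivity)]
        have h7 : 16 * T / ε ≤ D ^ 2 := by
          have h8 : 0 < 16 * T / ε := by positivity
          rw [hD]
          nlinarith
        have h8 : 16 * T ≤ D ^ 2 * ε := by
          rw [div_le_iff₀ hε] at h7
          exact h7
        nlinarith [ht.2]
      have h8 := Real.add_one_le_exp (D ^ 2 / (8 * t))
      have h9 : 0 < 2 / ε := by positivity
      rw [Real.exp_neg]
      have h10 : 2 / ε ≤ Real.exp (D ^ 2 / (8 * t)) := by linarith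
      calc 2 * (Real.exp (D ^ 2 / (8 * t)))⁻¹ ≤ 2 * (2 / ε)⁻¹ := by
            gcongr
        _ = ε := by
            field_simp
    linarith

/-! ### approximable functions -/

/-- the evolution of `ψ` can be approximated by nice solutions -/
def Appr (F : ℝ → ℝ) (H : ℝ → X → X → ℝ) (n : ℕ) (ψ : E (n + 2) → ℝ) : Prop :=
  ∀ T > 0, ∀ η > 0, ∃ u, NiceN F n u ∧
      (∀ x, |u 0 x - ∑' k : ℤ, ψ ((gam n ^ k) x)| ≤ η) ∧
      ∀ t ∈ Ioc 0 T, ∀ x, |u t x - ∫ z : E (n + 2), Hn H t x z * ψ z * F (z 0)| ≤ η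

theorem tsum_PP (hG : T_GAM) (f : X → ℝ) (g : Fin n → ℝ → ℝ) (x : E (n + 2)) :
    ∑' k : ℤ, PP f g ((gam n ^ k) x)
      = (∑' k : ℤ, f (gk k (pX x))) * ∏ i : Fin n, g i (x i.succ.succ) := by
  rw [← tsum_mul_right]
  congr 1
  funext k
  unfold PP
  rw [((hG n).1 k x).1]
  congr 1
  refine Finset.prod_congr rfl fun i _ => ?_
  rw [((hG n).1 k x).2 i]

theorem appr_PP (hL : T_LAP) (hG : T_GAM) (h1 : T_GG1) (h2 : T_GG2) {F : ℝ → ℝ}
    {H : ℝ → X → X → ℝ} (hF : Prof F) (hH : Heat F H) (f : X → ℝ) (g : Fin n → ℝ → ℝ)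
    (hf : Continuous f) (hfc : HasCompactSupport f) (hg : ∀ i, Continuous (g i))
    (hgc : ∀ i, HasCompactSupport (g i)) (hgb : ∀ i x, |g i x| ≤ 1) : Appr F H n (PP f g) := by
  intro T hT η hη
  obtain ⟨u, hu, hu0, hut⟩ := hH.apx f hf hfc T hT η hη
  have hprod1 : ∀ t, 0 ≤ t → ∀ x : E (n + 2),
      |∏ i : Fin n, ww (g i) t (x i.succ.succ)| ≤ 1 := by
    intro t ht x
    rw [Finset.abs_prod]
    exact Finset.prod_le_one (fun i _ => abs_nonneg _) fun i _ => ww_le h1 (hg i) (hgb i) ht _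
  refine ⟨fun t => PP (u t) (fun i => ww (g i) t), ?_, ?_, ?_⟩
  · refine ⟨?_, ?_, ?_, ?_, ?_⟩
    · intro t ht
      refine contDiff_PP (hu.cl.c2 t ht) fun i => ?_
      rw [ww_of_pos _ ht]
      exact (h2.c2 t ht (g i) 1 (hg i).measurable (hgb i)).1
    · intro t ht x
      have hw2 : ∀ i, ContDiff ℝ 2 (ww (g i) t) := by
        intro i
        rw [ww_of_pos _ ht]
        exact (h2.c2 t ht (g i) 1 (hg i).measurable (hgb i)).1
      rw [lap_PP hL hF (hu.cl.c2 t ht) hw2]
      refine hasDerivAt_PP (w := fun τ i => ww (g i) τ) (hu.cl.heat t ht (pX x)) fun i => ?_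
      have h3 := ((h2.c2 t ht (g i) 1 (hg i).measurable (hgb i)).2 (x i.succ.succ)).1
      rw [ww_of_pos _ ht]
      refine h3.congr_of_eventuallyEq ?_
      filter_upwards [lt_mem_nhds ht] with τ hτ
      rw [ww_of_pos _ hτ]
    · have hA : ContinuousOn (fun z : ℝ × E (n + 2) => u z.1 (pX z.2)) (Ici 0 ×ˢ univ) := by
        have h3 : ContinuousOn (fun z : ℝ × E (n + 2) => (z.1, pX z.2)) (Ici 0 ×ˢ univ) :=
          (continuous_fst.prodMk (continuous_pX.comp continuous_snd)).continuousOn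
        exact hu.cont.comp h3 (fun z hz => ⟨hz.1, mem_univ _⟩)
      have hB : ContinuousOn (fun z : ℝ × E (n + 2) =>
          ∏ i : Fin n, ww (g i) z.1 (z.2 i.succ.succ)) (Ici 0 ×ˢ univ) := by
        apply continuousOn_finsetProd
        intro i _
        have h3 : ContinuousOn (fun z : ℝ × E (n + 2) => (z.1, z.2 i.succ.succ))
            (Ici 0 ×ˢ univ) := by
          apply Continuous.continuousOn
          fun_prop
        exact (ww_cont h1 (hg i) (hgb i)).comp h3 (fun z hz => ⟨hz.1, mem_univ _⟩)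
      exact hA.mul hB
    · intro t ht x
      have h3 := (hG n).1 1 x
      rw [zpow_one] at h3
      unfold PP
      rw [h3.1, gk_one, hu.inv t ht]
      congr 1
    · intro T' hT' ε hε
      obtain ⟨B, hB, hBu⟩ := bdd_nice hu hT'
      obtain ⟨R1, hR1⟩ := hu.dec T' hT' ε hε
      have hR2 : ∀ i, ∃ R, ∀ t ∈ Icc 0 T', ∀ z, R ≤ |z| → |ww (g i) t z| ≤ ε / B := fun i =>
        ww_tail h1 (hg i) (hgb i) (hgc i) hT' (by positivity)
      choose R2 hR2 using hR2
      refine ⟨max R1 (∑ i, |R2 i|), fun t ht x hx => ?_⟩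
      unfold PP
      rw [abs_mul]
      rcases hx with hx | ⟨i, hx⟩
      · have h3 := hR1 t ht (pX x) ((le_max_left _ _).trans hx)
        have h4 := hprod1 t ht.1 x
        calc |u t (pX x)| * |∏ i : Fin n, ww (g i) t (x i.succ.succ)| ≤ ε * 1 := by
              gcongr
          _ = ε := mul_one _
      · have h3 := hBu t ht (pX x)
        have h4 : |∏ i : Fin n, ww (g i) t (x i.succ.succ)| ≤ ε / B := by
          rw [Finset.abs_prod, ← Finset.mul_prod_erase Finset.univ _ (Finset.mem_univ i)]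
          have h5 : R2 i ≤ |x i.succ.succ| := by
            refine le_trans ?_ hx
            refine le_trans ?_ (le_max_right _ _)
            refine (le_abs_self _).trans ?_
            exact Finset.single_le_sum (f := fun i => |R2 i|) (fun j _ => abs_nonneg _)
              (Finset.mem_univ i)
          have h6 := hR2 i t ht _ h5
          have h7 : ∏ j ∈ Finset.univ.erase i, |ww (g j) t (x j.succ.succ)| ≤ 1 :=
            Finset.prod_le_one (fun j _ => abs_nonneg _) fun j _ => ww_le h1 (hg j) (hgb j) ht.1 _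
          have h8 : 0 ≤ ∏ j ∈ Finset.univ.erase i, |ww (g j) t (x j.succ.succ)| :=
            Finset.prod_nonneg fun j _ => abs_nonneg _
          calc |ww (g i) t (x i.succ.succ)| * ∏ j ∈ Finset.univ.erase i, |ww (g j) t (x j.succ.succ)|
              ≤ ε / B * 1 := by gcongr
            _ = ε / B := mul_one _
        calc |u t (pX x)| * |∏ i : Fin n, ww (g i) t (x i.succ.succ)| ≤ B * (ε / B) := by
              gcongr
          _ = ε := by field_simp
  · intro x
    rw [tsum_PP hG]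
    have h3 : PP (u 0) (fun i => ww (g i) 0) x - (∑' k : ℤ, f (gk k (pX x))) *
        ∏ i : Fin n, g i (x i.succ.succ)
        = (u 0 (pX x) - ∑' k : ℤ, f (gk k (pX x))) * ∏ i : Fin n, ww (g i) 0 (x i.succ.succ) := by
      unfold PP
      simp only [ww_zero]
      ring
    rw [h3, abs_mul]
    calc |u 0 (pX x) - ∑' k : ℤ, f (gk k (pX x))| * |∏ i : Fin n, ww (g i) 0 (x i.succ.succ)|
        ≤ η * 1 := by
          gcongr
          · exact hu0 (pX x)
          · exact hprod1 0 le_rfl x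
      _ = η := mul_one _
  · intro t ht x
    rw [integral_Hn_PP ht.1]
    have h3 : PP (u t) (fun i => ww (g i) t) x - (∫ q : X, H t (pX x) q * f q * F q.1) *
        ∏ i : Fin n, GG t (g i) (x i.succ.succ)
        = (u t (pX x) - ∫ q : X, H t (pX x) q * f q * F q.1) *
          ∏ i : Fin n, ww (g i) t (x i.succ.succ) := by
      unfold PP
      simp only [ww_of_pos _ ht.1]
      ring
    rw [h3, abs_mul]
    calc |u t (pX x) - ∫ q : X, H t (pX x) q * f q * F q.1| *
          |∏ i : Fin n, ww (g i) t (x i.succ.succ)|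
        ≤ η * 1 := by
          gcongr
          · exact hut t ht (pX x)
          · exact hprod1 t ht.1.le x
      _ = η := mul_one _

end Pool.Agent.H30.HK
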