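import Pool.Agent.H30.HK.PRD

/-!
MP_e94f6f_an (helper96), module FUN: the product kernel is a positive fundamental solution.
-/

open MeasureTheory Set Filter Topology
open scoped ContDiff
open Pool.Agent.H96.HK

namespace Pool.Agent.H30.HK

variable {n : ℕ}

theorem gg_pos {t : ℝ} (ht : 0 < t) (x : ℝ) : 0 < gg t x := by
  unfold gg
  have : 0 < 4 * Real.pi * t := by positivity
  positivity

theorem hasDerivAt_gg_x {t : ℝ} (ht : 0 < t) (x : ℝ) :
    HasDerivAt (gg t) (-(x / (2 * t)) * gg t x) x := by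
  unfold gg
  have h1 : HasDerivAt (fun x : ℝ => -(x ^ 2 / (4 * t))) (-(2 * x / (4 * t))) x := by
    have h2 := ((hasDerivAt_pow 2 x).div_const (4 * t)).fun_neg
    simpa using h2
  have h3 := (h1.exp).const_mul ((√(4 * Real.pi * t))⁻¹)
  convert! h3 using 1
  field_simp
  ring

theorem deriv_gg_x {t : ℝ} (ht : 0 < t) : deriv (gg t) = fun x => -(x / (2 * t)) * gg t x := by
  funext x
  exact (hasDerivAt_gg_x ht x).deriv

theorem hasDerivAt_deriv_gg {t : ℝ} (ht : 0 < t) (x : ℝ) :
    HasDerivAt (deriv (gg t)) ((x ^ 2 / (4 * t ^ 2) - 1 / (2 * t)) * gg t x) x := by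
  rw [deriv_gg_x ht]
  have h1 : HasDerivAt (fun x : ℝ => -(x / (2 * t))) (-(1 / (2 * t))) x := by
    have h2 := ((hasDerivAt_id x).div_const (2 * t)).fun_neg
    simpa using h2
  have h3 := h1.fun_mul (hasDerivAt_gg_x ht x)
  convert! h3 using 1
  field_simp
  ring

theorem hasDerivAt_gg_t {t : ℝ} (ht : 0 < t) (x : ℝ) :
    HasDerivAt (fun τ => gg τ x) ((x ^ 2 / (4 * t ^ 2) - 1 / (2 * t)) * gg t x) t := by
  unfold gg
  have h4 : 0 < 4 * Real.pi * t := by positivity
  have h1 : HasDerivAt (fun τ : ℝ => √(4 * Real.pi * τ)) (4 * Real.pi / (2 * √(4 * Real.pi * t))) t := by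
    have h2 : HasDerivAt (fun τ : ℝ => 4 * Real.pi * τ) (4 * Real.pi) t := by
      simpa using (hasDerivAt_id t).const_mul (4 * Real.pi)
    exact h2.sqrt h4.ne'
  have h5 : √(4 * Real.pi * t) ≠ 0 := (Real.sqrt_pos.mpr h4).ne'
  have h2 := h1.fun_inv h5
  have h3 : HasDerivAt (fun τ : ℝ => -(x ^ 2 / (4 * τ))) (x ^ 2 / (4 * t ^ 2)) t := by
    have h6 : HasDerivAt (fun τ : ℝ => 4 * τ) 4 t := by
      simpa using (hasDerivAt_id t).const_mul (4 : ℝ)
    have h7 := ((h6.fun_inv (by positivity)).const_mul (x ^ 2)).fun_neg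
    convert! h7 using 1
    field_simp
  have h8 := h2.fun_mul h3.exp
  convert! h8 using 1
  have h9 : √(4 * Real.pi * t) ^ 2 = 4 * Real.pi * t := Real.sq_sqrt h4.le
  set s := √(4 * Real.pi * t) with hs
  have h10 : 4 * Real.pi / (2 * s) / s ^ 2 = 1 / (2 * t) * s⁻¹ := by
    rw [h9]
    field_simp
  rw [neg_div, h10]
  ring

theorem contDiff_gg {t : ℝ} {m : WithTop ℕ∞} : ContDiff ℝ m (gg t) := by
  unfold gg
  fun_prop

theorem Hn_eq_PP {H : ℝ → X → X → ℝ} {t : ℝ} (ht : 0 < t) (x y : E (n + 2)) :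
    Hn H t x y = PP (fun p => H t p (pX y)) (fun i r => gg t (r - y i.succ.succ)) x := by
  unfold Hn PP
  rw [En_eq t ht]

theorem fun_ (hA : T_APN) (hG : T_GAM) (hL : T_LAP) : T_FUN := by
  intro F H hF hH hpos n y
  have hvol := (hL F hF n).1
  refine ⟨?_, ?_, ?_, ?_, ?_, ?_⟩
  · intro t ht x
    rw [Hn_eq_PP ht]
    exact mul_pos (hpos t ht _ _) (Finset.prod_pos fun i _ => gg_pos ht _)
  · intro t ht γ hγ x
    obtain ⟨k, rfl⟩ := Subgroup.mem_zpowers_iff.mp hγ
    simp only [Hn, zz]
    rw [((hG n).1 k x).1, hH.inv_left ht]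
    congr 2
    refine Finset.sum_congr rfl fun i _ => ?_
    rw [((hG n).1 k x).2 i]
  · have h1 : ContinuousOn (fun p : ℝ × E (n + 2) => H p.1 (pX p.2) (pX y)) (Ioi 0 ×ˢ univ) := by
      have h2 : Continuous (fun p : ℝ × E (n + 2) => (p.1, pX p.2, pX y)) :=
        continuous_fst.prodMk ((continuous_pX.comp continuous_snd).prodMk continuous_const)
      exact hH.cont.comp h2.continuousOn (fun p hp => ⟨hp.1, mem_univ _⟩)
    have h3 : ContinuousOn (fun p : ℝ × E (n + 2) => En n p.1 (zz p.2 y)) (Ioi 0 ×ˢ univ) := by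
      unfold En zz
      have h4 : ∀ p ∈ (Ioi (0 : ℝ) ×ˢ (univ : Set (E (n + 2)))), 4 * p.1 ≠ 0 := by
        intro p hp
        have : 0 < p.1 := hp.1
        positivity
      refine ContinuousOn.mul ?_ ?_
      · refine ContinuousOn.rpow_const (by fun_prop) ?_
        intro p hp
        left
        have : 0 < p.1 := hp.1
        positivity
      · refine Real.continuous_exp.comp_continuousOn ?_
        refine ContinuousOn.neg (ContinuousOn.div ?_ (by fun_prop) h4)
        apply Continuous.continuousOn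
        fun_prop
    exact h1.mul h3
  · intro t ht
    have h1 : (fun x => Hn H t x y) =
        PP (fun p => H t p (pX y)) (fun i r => gg t (r - y i.succ.succ)) := by
      funext x
      exact Hn_eq_PP ht x y
    rw [h1]
    refine contDiff_PP ((hH.cl (pX y)).c2 t ht) fun i => ?_
    exact contDiff_gg.comp (contDiff_id.sub contDiff_const)
  · intro t ht x
    have h1 : (fun x => Hn H t x y) =
        PP (fun p => H t p (pX y)) (fun i r => gg t (r - y i.succ.succ)) := by
      funext x
      exact Hn_eq_PP ht x y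
    have hw2 : ∀ i : Fin n, ContDiff ℝ 2 (fun r => gg t (r - y i.succ.succ)) := fun i =>
      contDiff_gg.comp (contDiff_id.sub contDiff_const)
    rw [h1, lap_PP hL hF ((hH.cl (pX y)).c2 t ht) hw2]
    have h2 := hasDerivAt_PP (n := n) (U := fun τ p => H τ p (pX y))
      (w := fun τ i r => gg τ (r - y i.succ.succ)) (t := t) (x := x)
      (b := fun i => deriv (deriv (fun r => gg t (r - y i.succ.succ))) (x i.succ.succ))
      ((hH.cl (pX y)).heat t ht (pX x)) ?_
    · refine h2.congr_of_eventuallyEq ?_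
      filter_upwards [lt_mem_nhds ht] with τ hτ
      exact Hn_eq_PP hτ x y
    · intro i
      have h3 := hasDerivAt_gg_t ht (x i.succ.succ - y i.succ.succ)
      have h4 : deriv (fun r => gg t (r - y i.succ.succ)) = fun r => deriv (gg t) (r - y i.succ.succ) := by
        funext r
        exact deriv_comp_sub_const (f := gg t) (a := y i.succ.succ) (x := r)
      have h5 : deriv (deriv (fun r => gg t (r - y i.succ.succ))) (x i.succ.succ)
          = ((x i.succ.succ - y i.succ.succ) ^ 2 / (4 * t ^ 2) - 1 / (2 * t)) *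
            gg t (x i.succ.succ - y i.succ.succ) := by
        rw [h4, deriv_comp_sub_const (f := deriv (gg t)) (a := y i.succ.succ)
          (x := x i.succ.succ)]
        exact (hasDerivAt_deriv_gg ht _).deriv
      rw [h5]
      exact h3
  · intro ψ hψ hψc
    rw [(hG n).2.2 ψ y, Metric.tendsto_nhds]
    intro ε hε
    obtain ⟨u, hu, hu0, hut⟩ := hA F H hF hH n ψ hψ hψc 1 one_pos (ε / 4) (by positivity)
    have h1 : Tendsto (fun t => u t y) (𝓝[>] 0) (𝓝 (u 0 y)) := by
      have h2 : ContinuousWithinAt (fun t => u t y) (Ici 0) 0 := by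
        have h3 : ContinuousOn (fun t => u t y) (Ici 0) := by
          have h4 : Continuous fun t : ℝ => (t, y) := by fun_prop
          exact hu.cont.comp h4.continuousOn (fun t ht => ⟨ht, mem_univ _⟩)
        exact h3 0 self_mem_Ici
      exact h2.tendsto.mono_left (nhdsWithin_mono _ Ioi_subset_Ici_self)
    rw [Metric.tendsto_nhds] at h1
    have h2 : ∀ᶠ t in 𝓝[>] (0 : ℝ), t ∈ Ioc (0 : ℝ) 1 := Ioc_mem_nhdsGT one_pos
    filter_upwards [h1 (ε / 4) (by positivity), h2] with t ht1 ht2
    have h3 : ∫ x : E (n + 2), Hn H t x y * ψ x * vol (gF F n) x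
        = ∫ z : E (n + 2), Hn H t y z * ψ z * F (z 0) := by
      apply integral_congr_ae
      refine Eventually.of_forall fun z => ?_
      simp only
      rw [hvol]
      congr 2
      simp only [Hn, zz]
      rw [hH.symm t ht2.1 (pX z) (pX y)]
      congr 2
      refine Finset.sum_congr rfl fun i _ => ?_
      ring
    rw [h3, Real.dist_eq]
    have e1 := hut t ht2 y
    have e2 := hu0 y
    rw [Real.dist_eq] at ht1
    rw [abs_lt] at *
    rw [abs_le] at *
    constructor <;> linarith [e1.1, e1.2, e2.1, e2.2, ht1.1, ht1.2]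

end Pool.Agent.H30.HK
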