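import Pool.Agent.H96.HK.Basic
import Pool.Agent.H96.HK.TargetsN

/-!
MP_e94f6f_an (helper96): products of a function of `pX x` and functions of the other coordinates.
-/

open MeasureTheory Set Filter Topology
open scoped ContDiff
open Pool.Agent.H96.HK

namespace Pool.Agent.H30.HK

variable {n : ℕ}

/-- product function -/
noncomputable def PP (U : X → ℝ) (w : Fin n → ℝ → ℝ) (x : E (n + 2)) : ℝ :=
  U (pX x) * ∏ i : Fin n, w i (x i.succ.succ)

theorem contDiff_coord {k : ℕ} (i : Fin k) {m : WithTop ℕ∞} :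
    ContDiff ℝ m (fun x : E k => x i) := by
  fun_prop

theorem contDiff_pX {m : WithTop ℕ∞} : ContDiff ℝ m (pX : E (n + 2) → X) := by
  unfold pX
  fun_prop

theorem continuous_pX : Continuous (pX : E (n + 2) → X) := by
  unfold pX
  fun_prop

theorem contDiff_PP {m : WithTop ℕ∞} {U : X → ℝ} {w : Fin n → ℝ → ℝ} (hU : ContDiff ℝ m U)
    (hw : ∀ i, ContDiff ℝ m (w i)) : ContDiff ℝ m (PP U w) := by
  unfold PP
  refine (hU.comp contDiff_pX).mul (contDiff_prod fun i _ => (hw i).comp (contDiff_coord _))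

/-- coordinate lines -/
theorem pd_of_line {k : ℕ} {f : E k → ℝ} {x : E k} (i : Fin k) (hf : DifferentiableAt ℝ f x)
    {v : ℝ} (h : HasDerivAt (fun r : ℝ => f (x + r • EuclideanSpace.single i (1 : ℝ))) v 0) :
    pd i f x = v := by
  have h1 : HasDerivAt (fun r : ℝ => x + r • EuclideanSpace.single i (1 : ℝ))
      (EuclideanSpace.single i (1 : ℝ)) 0 := by
    have h2 := ((hasDerivAt_id (0 : ℝ)).smul_const (EuclideanSpace.single i (1 : ℝ))).const_add x
    simpa using h2
  have h3 : HasFDerivAt f (fderiv ℝ f x) (x + (0 : ℝ) • EuclideanSpace.single i (1 : ℝ)) := by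
    rw [zero_smul, add_zero]
    exact hf.hasFDerivAt
  have h4 := h3.comp_hasDerivAt (0 : ℝ) h1
  exact h4.unique h

theorem line_apply {k : ℕ} (x : E k) (i j : Fin k) (r : ℝ) :
    (x + r • EuclideanSpace.single i (1 : ℝ)) j = x j + if j = i then r else 0 := by
  simp

theorem hasDerivAt_ds {U : X → ℝ} {p : X} (hU : DifferentiableAt ℝ U p) :
    HasDerivAt (fun r : ℝ => U (p.1 + r, p.2)) (ds U p) 0 := by
  have h1 : DifferentiableAt ℝ (fun a : ℝ => U (a, p.2)) p.1 := by
    have h2 : DifferentiableAt ℝ (fun a : ℝ => (a, p.2)) p.1 := by fun_prop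
    exact DifferentiableAt.comp (g := U) p.1 hU h2
  have h3 := h1.hasDerivAt
  have h4 : HasDerivAt (fun r : ℝ => p.1 + r) 1 0 := by
    simpa using (hasDerivAt_id (0 : ℝ)).const_add p.1
  have h5 : HasDerivAt (fun a : ℝ => U (a, p.2)) (deriv (fun a : ℝ => U (a, p.2)) p.1)
      (p.1 + 0) := by
    rw [add_zero]
    exact h3
  have h6 := h5.comp (0 : ℝ) h4
  rw [mul_one] at h6
  exact h6

theorem hasDerivAt_dp {U : X → ℝ} {p : X} (hU : DifferentiableAt ℝ U p) :
    HasDerivAt (fun r : ℝ => U (p.1, p.2 + r)) (dp U p) 0 := by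
  have h1 : DifferentiableAt ℝ (fun b : ℝ => U (p.1, b)) p.2 := by
    have h2 : DifferentiableAt ℝ (fun b : ℝ => (p.1, b)) p.2 := by fun_prop
    exact DifferentiableAt.comp (g := U) p.2 hU h2
  have h3 := h1.hasDerivAt
  have h4 : HasDerivAt (fun r : ℝ => p.2 + r) 1 0 := by
    simpa using (hasDerivAt_id (0 : ℝ)).const_add p.2
  have h5 : HasDerivAt (fun b : ℝ => U (p.1, b)) (deriv (fun b : ℝ => U (p.1, b)) p.2)
      (p.2 + 0) := by
    rw [add_zero]
    exact h3
  have h6 := h5.comp (0 : ℝ) h4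
  rw [mul_one] at h6
  exact h6

theorem ds_eq {U : X → ℝ} (hU : Differentiable ℝ U) : ds U = fun p => fderiv ℝ U p (1, 0) := by
  funext p
  have h1 : HasDerivAt (fun a : ℝ => (a, p.2)) (((1 : ℝ), (0 : ℝ)) : X) p.1 :=
    (hasDerivAt_id p.1).prodMk (hasDerivAt_const p.1 p.2)
  have h2 : HasFDerivAt U (fderiv ℝ U p) (p.1, p.2) := (hU p).hasFDerivAt
  exact (h2.comp_hasDerivAt p.1 h1).deriv

theorem dp_eq {U : X → ℝ} (hU : Differentiable ℝ U) : dp U = fun p => fderiv ℝ U p (0, 1) := by
  funext p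
  have h1 : HasDerivAt (fun b : ℝ => (p.1, b)) (((0 : ℝ), (1 : ℝ)) : X) p.2 :=
    (hasDerivAt_const p.2 p.1).prodMk (hasDerivAt_id p.2)
  have h2 : HasFDerivAt U (fderiv ℝ U p) (p.1, p.2) := (hU p).hasFDerivAt
  exact (h2.comp_hasDerivAt p.2 h1).deriv

theorem contDiff_ds {U : X → ℝ} (hU : ContDiff ℝ 2 U) : ContDiff ℝ 1 (ds U) := by
  rw [ds_eq (hU.differentiable (by norm_num))]
  exact (hU.fderiv_right (m := 1) (by norm_num)).clm_apply contDiff_const

theorem contDiff_dp {U : X → ℝ} (hU : ContDiff ℝ 2 U) : ContDiff ℝ 1 (dp U) := by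
  rw [dp_eq (hU.differentiable (by norm_num))]
  exact (hU.fderiv_right (m := 1) (by norm_num)).clm_apply contDiff_const

theorem pd_zero_PP {U : X → ℝ} {w : Fin n → ℝ → ℝ} (hU : ContDiff ℝ 1 U)
    (hw : ∀ i, ContDiff ℝ 1 (w i)) : pd 0 (PP U w) = PP (ds U) w := by
  funext x
  apply pd_of_line 0 ((contDiff_PP hU hw).differentiable (by norm_num) x)
  have h1 := (hasDerivAt_ds (hU.differentiable (by norm_num) (pX x))).mul_const
    (∏ i : Fin n, w i (x i.succ.succ))
  refine h1.congr_of_eventuallyEq (Eventually.of_forall fun r => ?_)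
  simp only [PP, pX, line_apply]
  simp [Fin.succ_ne_zero]

theorem pd_one_PP {U : X → ℝ} {w : Fin n → ℝ → ℝ} (hU : ContDiff ℝ 1 U)
    (hw : ∀ i, ContDiff ℝ 1 (w i)) : pd 1 (PP U w) = PP (dp U) w := by
  funext x
  apply pd_of_line 1 ((contDiff_PP hU hw).differentiable (by norm_num) x)
  have h1 := (hasDerivAt_dp (hU.differentiable (by norm_num) (pX x))).mul_const
    (∏ i : Fin n, w i (x i.succ.succ))
  refine h1.congr_of_eventuallyEq (Eventually.of_forall fun r => ?_)
  have h2 : ∀ i : Fin n, ¬ (i.succ.succ = (1 : Fin (n + 2))) := by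
    intro i h
    have : i.succ.succ = (0 : Fin (n + 1)).succ := h
    exact Fin.succ_ne_zero _ (Fin.succ_injective _ this)
  simp only [PP, pX, line_apply]
  simp [h2]

theorem pd_ss_PP {U : X → ℝ} {w : Fin n → ℝ → ℝ} (hU : ContDiff ℝ 1 U)
    (hw : ∀ i, ContDiff ℝ 1 (w i)) (i : Fin n) :
    pd i.succ.succ (PP U w) = PP U (Function.update w i (deriv (w i))) := by
  funext x
  apply pd_of_line i.succ.succ ((contDiff_PP hU hw).differentiable (by norm_num) x)
  have hwi : HasDerivAt (fun r : ℝ => w i (x i.succ.succ + r)) (deriv (w i) (x i.succ.succ)) 0 := by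
    have h4 : HasDerivAt (fun r : ℝ => x i.succ.succ + r) 1 0 := by
      simpa using (hasDerivAt_id (0 : ℝ)).const_add (x i.succ.succ)
    have h5 : HasDerivAt (w i) (deriv (w i) (x i.succ.succ)) (x i.succ.succ + 0) := by
      rw [add_zero]
      exact ((hw i).differentiable (by norm_num) _).hasDerivAt
    have h6 := h5.comp (0 : ℝ) h4
    rw [mul_one] at h6
    exact h6
  have h1 := (hwi.mul_const (∏ j ∈ Finset.univ.erase i, w j (x j.succ.succ))).const_mul (U (pX x))
  have e0 : ∀ j : Fin n, ¬ ((0 : Fin (n + 2)) = j.succ.succ) := fun j h =>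
    Fin.succ_ne_zero _ h.symm
  have e1 : ∀ j : Fin n, ¬ ((1 : Fin (n + 2)) = j.succ.succ) := by
    intro j h
    have : (0 : Fin (n + 1)).succ = j.succ.succ := h
    exact Fin.succ_ne_zero _ (Fin.succ_injective _ this).symm
  have efun : (fun r : ℝ => PP U w (x + r • EuclideanSpace.single i.succ.succ (1 : ℝ))) =
      fun r : ℝ => U (pX x) * (w i (x i.succ.succ + r) *
        ∏ j ∈ Finset.univ.erase i, w j (x j.succ.succ)) := by
    funext r
    simp only [PP, pX, line_apply]
    simp only [e0, e1, if_false, add_zero]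
    congr 1
    rw [← Finset.mul_prod_erase Finset.univ _ (Finset.mem_univ i)]
    simp only [if_true]
    congr 1
    refine Finset.prod_congr rfl fun j hj => ?_
    have hji : j ≠ i := Finset.ne_of_mem_erase hj
    have : ¬ (j.succ.succ = i.succ.succ) := fun h =>
      hji (Fin.succ_injective _ (Fin.succ_injective _ h))
    simp [this]
  have eval : PP U (Function.update w i (deriv (w i))) x = U (pX x) *
      (deriv (w i) (x i.succ.succ) * ∏ j ∈ Finset.univ.erase i, w j (x j.succ.succ)) := by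
    simp only [PP]
    congr 1
    rw [← Finset.mul_prod_erase Finset.univ _ (Finset.mem_univ i)]
    simp only [Function.update_self]
    congr 1
    refine Finset.prod_congr rfl fun j hj => ?_
    have hji : j ≠ i := Finset.ne_of_mem_erase hj
    rw [Function.update_of_ne hji]
  rw [efun, eval]
  exact h1

/-- the Laplacian of a product -/
theorem lap_PP (hL : T_LAP) {F : ℝ → ℝ} (hF : Prof F) {U : X → ℝ} {w : Fin n → ℝ → ℝ}
    (hU : ContDiff ℝ 2 U) (hw : ∀ i, ContDiff ℝ 2 (w i)) (x : E (n + 2)) :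
    lap (gF F n) (PP U w) x = LB F U (pX x) * (∏ i : Fin n, w i (x i.succ.succ)) +
      U (pX x) * ∑ i : Fin n, (∏ j ∈ Finset.univ.erase i, w j (x j.succ.succ)) *
        deriv (deriv (w i)) (x i.succ.succ) := by
  rw [(hL F hF n).2 (PP U w) x (contDiff_PP hU hw).contDiffAt]
  have hU1 : ContDiff ℝ 1 U := hU.of_le (by norm_num)
  have hw1 : ∀ i, ContDiff ℝ 1 (w i) := fun i => (hw i).of_le (by norm_num)
  have hwd : ∀ i, ContDiff ℝ 1 (deriv (w i)) := by
    intro i
    have h1 := hw i
    have h2 : ContDiff ℝ (1 + 1) (w i) := by norm_num; exact h1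
    exact (contDiff_succ_iff_deriv.mp h2).2.2
  have hup : ∀ i j, ContDiff ℝ 1 (Function.update w i (deriv (w i)) j) := by
    intro i j
    by_cases h : j = i
    · subst h
      rw [Function.update_self]
      exact hwd j
    · rw [Function.update_of_ne h]
      exact hw1 j
  rw [pd_zero_PP hU1 hw1, pd_zero_PP (contDiff_ds hU) hw1, pd_one_PP hU1 hw1,
    pd_one_PP (contDiff_dp hU) hw1]
  have h3 : ∀ i : Fin n, pd i.succ.succ (pd i.succ.succ (PP U w)) x
      = U (pX x) * ((∏ j ∈ Finset.univ.erase i, w j (x j.succ.succ)) *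
        deriv (deriv (w i)) (x i.succ.succ)) := by
    intro i
    rw [pd_ss_PP hU1 hw1, pd_ss_PP hU1 (hup i)]
    simp only [PP]
    congr 1
    rw [← Finset.mul_prod_erase Finset.univ _ (Finset.mem_univ i), mul_comm]
    simp only [Function.update_self]
    congr 1
    refine Finset.prod_congr rfl fun j hj => ?_
    have hji : j ≠ i := Finset.ne_of_mem_erase hj
    rw [Function.update_of_ne hji, Function.update_of_ne hji]
  rw [Finset.sum_congr rfl fun i _ => h3 i, ← Finset.mul_sum]
  unfold LB PP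
  have h4 : (pX x).1 = x 0 := rfl
  rw [h4]
  ring

/-- time derivative of a product -/
theorem hasDerivAt_PP {U : ℝ → X → ℝ} {w : ℝ → Fin n → ℝ → ℝ} {t : ℝ} {x : E (n + 2)} {a : ℝ}
    {b : Fin n → ℝ} (hU : HasDerivAt (fun τ => U τ (pX x)) a t)
    (hw : ∀ i, HasDerivAt (fun τ => w τ i (x i.succ.succ)) (b i) t) :
    HasDerivAt (fun τ => PP (U τ) (w τ) x) (a * (∏ i : Fin n, w t i (x i.succ.succ)) +
      U t (pX x) * ∑ i : Fin n, (∏ j ∈ Finset.univ.erase i, w t j (x j.succ.succ)) * b i) t := by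
  have h1 := HasDerivAt.fun_finsetProd (u := Finset.univ) (fun i _ => hw i)
  simp only [smul_eq_mul] at h1
  exact hU.mul h1

/-! ### integration -/

/-- splitting of the coordinates -/
noncomputable def spl (x : E (n + 2)) : X × (Fin n → ℝ) := (pX x, fun i => x i.succ.succ)

/-- the point with given coordinates -/
noncomputable def mk (p : X) (z : Fin n → ℝ) : E (n + 2) :=
  WithLp.toLp 2 (Fin.cons p.1 (Fin.cons p.2 z))

@[simp] theorem pX_mk (p : X) (z : Fin n → ℝ) : pX (mk p z) = p := rfl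
@[simp] theorem mk_ss (p : X) (z : Fin n → ℝ) (i : Fin n) : mk p z i.succ.succ = z i := rfl
@[simp] theorem mk_zero (p : X) (z : Fin n → ℝ) : mk p z 0 = p.1 := rfl
@[simp] theorem mk_one (p : X) (z : Fin n → ℝ) : mk p z 1 = p.2 := rfl

theorem mk_spl (x : E (n + 2)) : mk (spl x).1 (spl x).2 = x := by
  ext i
  refine Fin.cases ?_ (fun i => ?_) i
  · rfl
  · refine Fin.cases ?_ (fun i => ?_) i
    · rfl
    · rfl

theorem measurePreserving_spl : MeasurePreserving (spl : E (n + 2) → X × (Fin n → ℝ)) := by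
  have h1 := PiLp.volume_preserving_ofLp (Fin (n + 2))
  have h2 := volume_preserving_piFinSuccAbove (fun _ : Fin (n + 1 + 1) => ℝ) 0
  have h3 := volume_preserving_piFinSuccAbove (fun _ : Fin (n + 1) => ℝ) 0
  have h4 := (MeasurePreserving.id (volume : Measure ℝ)).prod h3
  have h5 := (MeasureTheory.measurePreserving_prodAssoc (volume : Measure ℝ) (volume : Measure ℝ)
    (volume : Measure (Fin n → ℝ))).symm
  exact h5.comp (h4.comp (h2.comp h1))

noncomputable def splHomeo : E (n + 2) ≃ₜ X × (Fin n → ℝ) where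
  toFun := spl
  invFun q := mk q.1 q.2
  left_inv x := mk_spl x
  right_inv q := rfl
  continuous_toFun := by
    unfold spl
    exact continuous_pX.prodMk (by fun_prop)
  continuous_invFun := by
    refine (PiLp.continuous_toLp 2 _).comp (continuous_pi fun i => ?_)
    refine Fin.cases ?_ (fun i => ?_) i
    · simp only [Fin.cons_zero]
      fun_prop
    · refine Fin.cases ?_ (fun i => ?_) i
      · simp only [Fin.cons_succ, Fin.cons_zero]
        fun_prop
      · simp only [Fin.cons_succ]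
        fun_prop

theorem integral_spl (G : X × (Fin n → ℝ) → ℝ) :
    ∫ x : E (n + 2), G (spl x) = ∫ q, G q :=
  measurePreserving_spl.integral_comp (splHomeo (n := n)).measurableEmbedding G

theorem integral_PP (A : X → ℝ) (g : Fin n → ℝ → ℝ) :
    ∫ x : E (n + 2), PP A g x = (∫ p, A p) * ∏ i, ∫ r, g i r := by
  have h1 := integral_spl (n := n) (fun q => A q.1 * ∏ i : Fin n, g i (q.2 i))
  have h2 : (fun x : E (n + 2) => PP A g x) = fun x : E (n + 2) =>
      (fun q : X × (Fin n → ℝ) => A q.1 * ∏ i : Fin n, g i (q.2 i)) (spl x) := rfl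
  rw [h2, h1]
  have h3 := integral_prod_mul (μ := (volume : Measure X)) (ν := (volume : Measure (Fin n → ℝ)))
    A (fun z : Fin n → ℝ => ∏ i : Fin n, g i (z i))
  rw [← Measure.volume_eq_prod] at h3
  rw [h3, integral_fintype_prod_volume_eq_prod]

theorem En_eq (t : ℝ) (ht : 0 < t) (x y : E (n + 2)) :
    En n t (zz x y) = ∏ i : Fin n, gg t (x i.succ.succ - y i.succ.succ) := by
  unfold En zz gg
  rw [Finset.prod_mul_distrib, Finset.prod_const, Finset.card_univ, Fintype.card_fin,
    ← Real.exp_sum]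
  congr 1
  · have h4 : 0 < 4 * Real.pi * t := by positivity
    rw [inv_pow, Real.sqrt_eq_rpow, ← Real.rpow_natCast, ← Real.rpow_mul h4.le, ← Real.rpow_neg h4.le]
    congr 1
    ring
  · congr 1
    rw [Finset.sum_neg_distrib, Finset.sum_div]

/-- the product kernel applied to a product -/
theorem integral_Hn_PP {F : ℝ → ℝ} {H : ℝ → X → X → ℝ} {t : ℝ} (ht : 0 < t) (x : E (n + 2))
    (f : X → ℝ) (g : Fin n → ℝ → ℝ) :
    ∫ z : E (n + 2), Hn H t x z * PP f g z * F (z 0)
      = (∫ q : X, H t (pX x) q * f q * F q.1) * ∏ i : Fin n, GG t (g i) (x i.succ.succ) := by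
  have h1 : (fun z : E (n + 2) => Hn H t x z * PP f g z * F (z 0)) = fun z : E (n + 2) =>
      PP (fun q : X => H t (pX x) q * f q * F q.1)
        (fun i r => gg t (x i.succ.succ - r) * g i r) z := by
    funext z
    simp only [Hn, PP]
    rw [En_eq t ht, Finset.prod_mul_distrib]
    have : (pX z).1 = z 0 := rfl
    rw [this]
    ring
  rw [h1, integral_PP]
  rfl

end Pool.Agent.H30.HK
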