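import Pool.Agent.H96.HK.Basic

/-!
Module TRIG for MP_e94f6f_an (helper96): density of trigonometric polynomials.
-/

open MeasureTheory Set Filter Topology
open Pool.Agent.H96.HK

namespace Pool.Agent.H30.HK

/-- span of the functions `cos (2 m x)` -/
def VV : Submodule ℝ (ℝ → ℝ) :=
  Submodule.span ℝ (Set.range fun (m : ℕ) (x : ℝ) => Real.cos (2 * m * x))

theorem cos_mem (m : ℕ) : (fun x : ℝ => Real.cos (2 * m * x)) ∈ VV :=
  Submodule.subset_span ⟨m, rfl⟩

theorem mul_mem {f : ℝ → ℝ} (hf : f ∈ VV) : (fun x : ℝ => Real.cos (2 * x) * f x) ∈ VV := by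
  refine Submodule.span_induction (p := fun f _ => (fun x : ℝ => Real.cos (2 * x) * f x) ∈ VV)
    ?_ ?_ ?_ ?_ hf
  · rintro _ ⟨m, rfl⟩
    cases m with
    | zero =>
      have h := cos_mem 1
      have e : (fun x : ℝ => Real.cos (2 * x) * Real.cos (2 * ((0 : ℕ) : ℝ) * x))
          = fun x : ℝ => Real.cos (2 * ((1 : ℕ) : ℝ) * x) := by
        funext x
        simp
      change (fun x : ℝ => Real.cos (2 * x) * Real.cos (2 * ((0 : ℕ) : ℝ) * x)) ∈ VV
      rw [e]
      exact h
    | succ m =>
      have e : (fun x : ℝ => Real.cos (2 * x) * Real.cos (2 * ((m + 1 : ℕ) : ℝ) * x))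
          = (1 / 2 : ℝ) • (fun x : ℝ => Real.cos (2 * ((m + 2 : ℕ) : ℝ) * x)) +
            (1 / 2 : ℝ) • (fun x : ℝ => Real.cos (2 * (m : ℝ) * x)) := by
        funext x
        simp only [Pi.add_apply, Pi.smul_apply, smul_eq_mul]
        have h1 : (2 * ((m + 2 : ℕ) : ℝ) * x) = 2 * ((m + 1 : ℕ) : ℝ) * x + 2 * x := by
          push_cast
          ring
        have h2 : (2 * (m : ℝ) * x) = 2 * ((m + 1 : ℕ) : ℝ) * x - 2 * x := by
          push_cast
          ring
        rw [h1, h2, Real.cos_add, Real.cos_sub]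
        ring
      change (fun x : ℝ => Real.cos (2 * x) * Real.cos (2 * ((m + 1 : ℕ) : ℝ) * x)) ∈ VV
      rw [e]
      exact VV.add_mem (VV.smul_mem _ (cos_mem _)) (VV.smul_mem _ (cos_mem _))
  · simp only [Pi.zero_apply, mul_zero]
    exact VV.zero_mem
  · intro f g _ _ hf hg
    have e : (fun x : ℝ => Real.cos (2 * x) * (f + g) x)
        = (fun x : ℝ => Real.cos (2 * x) * f x) + fun x : ℝ => Real.cos (2 * x) * g x := by
      funext x
      simp only [Pi.add_apply]
      ring
    rw [e]
    exact VV.add_mem hf hg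
  · intro a f _ hf
    have e : (fun x : ℝ => Real.cos (2 * x) * (a • f) x)
        = a • (fun x : ℝ => Real.cos (2 * x) * f x) := by
      funext x
      simp only [Pi.smul_apply, smul_eq_mul]
      ring
    rw [e]
    exact VV.smul_mem _ hf

theorem cos_pow_mem (n : ℕ) : (fun x : ℝ => (Real.cos x ^ 2) ^ n) ∈ VV := by
  induction n with
  | zero =>
    have h := cos_mem 0
    have e : (fun x : ℝ => (Real.cos x ^ 2) ^ 0) = fun x : ℝ => Real.cos (2 * ((0 : ℕ) : ℝ) * x) := by
      funext x
      simp
    rw [e]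
    exact h
  | succ n ih =>
    have e : (fun x : ℝ => (Real.cos x ^ 2) ^ (n + 1))
        = (1 / 2 : ℝ) • (fun x : ℝ => (Real.cos x ^ 2) ^ n) +
          (1 / 2 : ℝ) • (fun x : ℝ => Real.cos (2 * x) * (Real.cos x ^ 2) ^ n) := by
      funext x
      simp only [Pi.add_apply, Pi.smul_apply, smul_eq_mul]
      rw [pow_succ, Real.cos_two_mul]
      ring
    rw [e]
    exact VV.add_mem (VV.smul_mem _ ih) (VV.smul_mem _ (mul_mem ih))

theorem exists_coeff (n : ℕ) : ∃ (N : ℕ) (c : ℕ → ℝ), ∀ x : ℝ,
    (Real.cos x ^ 2) ^ n = ∑ m ∈ Finset.range N, c m * Real.cos (2 * m * x) := by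
  have h := cos_pow_mem n
  rw [VV, Finsupp.mem_span_range_iff_exists_finsupp] at h
  obtain ⟨c, hc⟩ := h
  refine ⟨c.support.sup id + 1, c, fun x => ?_⟩
  have h1 := congrFun hc x
  rw [← h1, Finsupp.sum, Finset.sum_apply]
  simp only [Pi.smul_apply, smul_eq_mul]
  refine Finset.sum_subset ?_ ?_
  · intro m hm
    rw [Finset.mem_range]
    have := Finset.le_sup (f := id) hm
    simp only [id_eq] at this
    omega
  · intro m _ hm
    rw [Finsupp.notMem_support_iff] at hm
    rw [hm, zero_mul]

/-- the integral over a period -/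
theorem period_int (f : X → ℝ) (hinv : GInv f) (s : ℝ) (g : ℝ → ℝ)
    (hg : Function.Periodic g Real.pi) (t : ℝ) :
    ∫ y in t..t + Real.pi, f (s, y) * g y = ∫ y in (0 : ℝ)..Real.pi, f (s, y) * g y := by
  have hp : Function.Periodic (fun y => f (s, y) * g y) Real.pi := by
    intro y
    have := hinv.pi (s, y)
    simp only at this
    simp only [hg y, this]
  have := hp.intervalIntegral_add_eq t 0
  rw [zero_add] at this
  exact this

theorem trig : T_TRIG := by
  intro f hf hinv R hR η hη
  have hpi := Real.pi_pos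
  have hper : ∀ p : X, ∀ k : ℤ, f (p.1, p.2 + k * Real.pi) = f p := by
    intro p k
    have h1 := hinv.gk (2 * k) p
    have h2 : gk (2 * k) p = (p.1, p.2 + k * Real.pi) := by
      unfold gk
      ext
      · simp only
        rw [(even_two_mul k).neg_one_zpow, one_mul]
      · simp only
        push_cast
        ring
    rw [h2] at h1
    exact h1
  -- the compact set
  let K : Set X := Icc (-R) R ×ˢ Icc 0 Real.pi
  have hK : IsCompact K := isCompact_Icc.prod isCompact_Icc
  have : CompactSpace K := isCompact_iff_compactSpace.mp hK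
  let G : ℝ → C(K, ℝ) := fun x =>
    ⟨fun p => f ((p : X).1, (p : X).2 - x), by fun_prop⟩
  have hG : Continuous G := by
    let G2 : C(ℝ × K, ℝ) := ⟨fun q => f ((q.2 : X).1, (q.2 : X).2 - q.1), by fun_prop⟩
    exact (ContinuousMap.curry G2).continuous
  have hGe : ∀ x p, G x p = f ((p : X).1, (p : X).2 - x) := fun x p => rfl
  let S : Set ℝ := Icc (-(Real.pi / 2)) (Real.pi / 2)
  have hS : IsCompact S := isCompact_Icc
  have hlim := tendsto_setIntegral_pow_smul_of_unique_maximum_of_isCompact_of_continuousOn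
    (μ := (volume : Measure ℝ)) (s := S) (x₀ := (0 : ℝ)) (c := fun x => Real.cos x ^ 2) (g := G)
    hS (by fun_prop) ?_ (fun x _ => sq_nonneg _) (by simp) ?_ hG.continuousOn
  rotate_left
  · intro y hy hy0
    simp only [Real.cos_zero, one_pow]
    have h1 : Real.sin y ≠ 0 := by
      intro h2
      rcases lt_or_gt_of_ne hy0 with h3 | h3
      · have := Real.sin_neg_of_neg_of_neg_pi_lt h3 (by have := hy.1; linarith)
        linarith
      · have := Real.sin_pos_of_pos_of_lt_pi h3 (by have := hy.2; linarith)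
        linarith
    have h2 := Real.sin_sq_add_cos_sq y
    have h3 : 0 < Real.sin y ^ 2 := by positivity
    linarith
  · rw [interior_Icc]
    apply subset_closure
    constructor <;> linarith
  rw [Metric.tendsto_atTop] at hlim
  obtain ⟨n, hn⟩ := hlim η hη
  replace hn := hn n le_rfl
  set A : ℝ := ∫ x in S, (Real.cos x ^ 2) ^ n with hA
  obtain ⟨N, c, hc⟩ := exists_coeff n
  -- the smoothed function
  let a : ℕ → ℝ → ℝ := fun m s =>
    A⁻¹ * c m * ∫ y in (0 : ℝ)..Real.pi, f (s, y) * Real.cos (2 * m * y)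
  let b : ℕ → ℝ → ℝ := fun m s =>
    A⁻¹ * c m * ∫ y in (0 : ℝ)..Real.pi, f (s, y) * Real.sin (2 * m * y)
  have hcosper : ∀ m : ℕ, Function.Periodic (fun y : ℝ => Real.cos (2 * m * y)) Real.pi := by
    intro m y
    have : 2 * (m : ℝ) * (y + Real.pi) = 2 * m * y + m * (2 * Real.pi) := by ring
    simp only
    rw [this, Real.cos_add_nat_mul_two_pi]
  have hsinper : ∀ m : ℕ, Function.Periodic (fun y : ℝ => Real.sin (2 * m * y)) Real.pi := by
    intro m y
    have : 2 * (m : ℝ) * (y + Real.pi) = 2 * m * y + m * (2 * Real.pi) := by ring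
    simp only
    rw [this, Real.sin_add_nat_mul_two_pi]
  -- reflection
  have hrefl : ∀ s y, f (-s, y) = f (s, y - Real.pi / 2) := by
    intro s y
    have := hinv (s, y - Real.pi / 2)
    unfold g0 at this
    simp only [sub_add_cancel] at this
    exact this
  have hzero : ∀ s, R ≤ |s| → ∀ y, f (s, y) = 0 := fun s hs y => hR (s, y) hs
  have hcont : ∀ g : ℝ → ℝ, Continuous g →
      Continuous fun s => ∫ y in (0 : ℝ)..Real.pi, f (s, y) * g y := by
    intro g hg
    apply intervalIntegral.continuous_parametric_intervalIntegral_of_continuous'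
    fun_prop
  have hnegc : ∀ m : ℕ, ∀ y : ℝ, Real.cos (2 * m * (y + Real.pi / 2)) = (-1) ^ m * Real.cos (2 * m * y) := by
    intro m y
    have : 2 * (m : ℝ) * (y + Real.pi / 2) = 2 * m * y + m * Real.pi := by ring
    rw [this, Real.cos_add_nat_mul_pi]
  have hnegs : ∀ m : ℕ, ∀ y : ℝ, Real.sin (2 * m * (y + Real.pi / 2)) = (-1) ^ m * Real.sin (2 * m * y) := by
    intro m y
    have : 2 * (m : ℝ) * (y + Real.pi / 2) = 2 * m * y + m * Real.pi := by ring
    rw [this, Real.sin_add_nat_mul_pi]
  have hshift : ∀ (s : ℝ) (m : ℕ) (g : ℝ → ℝ), Function.Periodic g Real.pi →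
      (∀ y, g (y + Real.pi / 2) = (-1) ^ m * g y) →
      ∫ y in (0 : ℝ)..Real.pi, f (-s, y) * g y
        = (-1) ^ m * ∫ y in (0 : ℝ)..Real.pi, f (s, y) * g y := by
    intro s m g hg1 hg2
    have h1 : ∫ y in (0 : ℝ)..Real.pi, f (-s, y) * g y
        = ∫ y in (-(Real.pi / 2))..(-(Real.pi / 2)) + Real.pi, f (s, y) * ((-1) ^ m * g y) := by
      have h2 := intervalIntegral.integral_comp_sub_right
        (f := fun y => f (s, y) * g (y + Real.pi / 2)) (a := 0) (b := Real.pi) (Real.pi / 2)
      simp only [sub_add_cancel] at h2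
      simp only [hrefl]
      rw [h2]
      simp only [hg2]
      congr 1 <;> ring
    rw [h1, ← period_int f hinv s g hg1 (-(Real.pi / 2)), ← intervalIntegral.integral_const_mul]
    apply intervalIntegral.integral_congr
    intro y _
    simp only
    ring
  have hvan : ∀ s, R ≤ |s| → ∀ g : ℝ → ℝ, ∫ y in (0 : ℝ)..Real.pi, f (s, y) * g y = 0 := by
    intro s hs g
    have : (fun y => f (s, y) * g y) = fun _ => (0 : ℝ) := by
      funext y
      rw [hzero s hs y, zero_mul]
    simp [this]
  have hvanab : ∀ n s, R ≤ |s| → a n s = 0 ∧ b n s = 0 := by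
    intro n s hs
    constructor
    · simp only [a]
      rw [hvan s hs, mul_zero]
    · simp only [b]
      rw [hvan s hs, mul_zero]
  have hcs : ∀ a : ℝ → ℝ, (∀ s, R ≤ |s| → a s = 0) → HasCompactSupport a := by
    intro a ha
    apply HasCompactSupport.intro (K := Icc (-R) R) isCompact_Icc
    intro s hs
    apply ha
    by_contra hlt
    rw [not_le, abs_lt] at hlt
    exact hs ⟨hlt.1.le, hlt.2.le⟩
  refine ⟨N, a, b, ?_, ?_, hvanab, ?_⟩
  · intro m
    refine ⟨continuous_const.mul (hcont _ (by fun_prop)), hcs _ (fun s hs => (hvanab m s hs).1),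
      fun s => ?_⟩
    simp only [a]
    rw [hshift s m _ (hcosper m) (hnegc m)]
    ring
  · intro m
    refine ⟨continuous_const.mul (hcont _ (by fun_prop)), hcs _ (fun s hs => (hvanab m s hs).2),
      fun s => ?_⟩
    simp only [b]
    rw [hshift s m _ (hsinper m) (hnegs m)]
    ring
  -- the approximation
  have htrg : ∀ p : X, trg N a b p
      = A⁻¹ * ∫ x in S, (Real.cos x ^ 2) ^ n * f (p.1, p.2 - x) := by
    intro p
    have h1 : ∫ x in S, (Real.cos x ^ 2) ^ n * f (p.1, p.2 - x)
        = ∫ y in (0 : ℝ)..Real.pi, f (p.1, y) * (Real.cos (p.2 - y) ^ 2) ^ n := by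
      have hg : Function.Periodic (fun y => (Real.cos (p.2 - y) ^ 2) ^ n) Real.pi := by
        intro y
        simp only
        have : p.2 - (y + Real.pi) = (p.2 - y) - Real.pi := by ring
        rw [this, Real.cos_sub_pi, neg_sq]
      rw [← period_int f hinv p.1 _ hg (p.2 - Real.pi / 2)]
      have h2 := intervalIntegral.integral_comp_sub_left
        (f := fun y => f (p.1, y) * (Real.cos (p.2 - y) ^ 2) ^ n)
        (a := -(Real.pi / 2)) (b := Real.pi / 2) p.2
      have e1 : p.2 - Real.pi / 2 + Real.pi = p.2 - -(Real.pi / 2) := by ring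
      rw [e1, ← h2, integral_Icc_eq_integral_Ioc,
        ← intervalIntegral.integral_of_le (by linarith)]
      apply intervalIntegral.integral_congr
      intro x _
      simp only [sub_sub_cancel]
      ring
    rw [h1]
    have h3 : ∀ y, f (p.1, y) * (Real.cos (p.2 - y) ^ 2) ^ n
        = ∑ m ∈ Finset.range N, (c m * Real.cos (2 * m * p.2) * (f (p.1, y) * Real.cos (2 * m * y))
          + c m * Real.sin (2 * m * p.2) * (f (p.1, y) * Real.sin (2 * m * y))) := by
      intro y
      rw [hc, Finset.mul_sum]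
      refine Finset.sum_congr rfl fun m _ => ?_
      have : 2 * (m : ℝ) * (p.2 - y) = 2 * m * p.2 - 2 * m * y := by ring
      rw [this, Real.cos_sub]
      ring
    simp only [h3]
    have hi : ∀ g : ℝ → ℝ, Continuous g →
        IntervalIntegrable (fun y => f (p.1, y) * g y) volume 0 Real.pi := by
      intro g hg
      apply Continuous.intervalIntegrable
      fun_prop
    rw [intervalIntegral.integral_finsetSum]
    · unfold trg
      rw [Finset.mul_sum]
      refine Finset.sum_congr rfl fun m _ => ?_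
      rw [intervalIntegral.integral_add ((hi _ (by fun_prop)).const_mul _)
        ((hi _ (by fun_prop)).const_mul _), intervalIntegral.integral_const_mul,
        intervalIntegral.integral_const_mul]
      simp only [a, b]
      ring
    · intro m _
      exact ((hi _ (by fun_prop)).const_mul _).add ((hi _ (by fun_prop)).const_mul _)
  have hmain : ∀ p ∈ K, |f p - trg N a b p| ≤ η := by
    intro p hp
    have h1 : ((A⁻¹ • ∫ x in S, (Real.cos x ^ 2) ^ n • G x) : C(K, ℝ)) ⟨p, hp⟩
        = trg N a b p := by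
      rw [htrg p, ContinuousMap.smul_apply, smul_eq_mul]
      congr 1
      have hint : IntegrableOn (fun x => (Real.cos x ^ 2) ^ n • G x) S := by
        apply ContinuousOn.integrableOn_compact hS
        exact (by fun_prop : Continuous fun x : ℝ => (Real.cos x ^ 2) ^ n).continuousOn.smul
          hG.continuousOn
      have h2 := ContinuousLinearMap.integral_comp_comm
        (ContinuousMap.evalCLM ℝ (⟨p, hp⟩ : K)) hint
      simp only [ContinuousMap.evalCLM_apply] at h2
      rw [← h2]
      rfl
    have h2 : ‖(A⁻¹ • ∫ x in S, (Real.cos x ^ 2) ^ n • G x) - G 0‖ < η := by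
      rw [← dist_eq_norm]
      exact hn
    have h3 := ContinuousMap.norm_coe_le_norm
      ((A⁻¹ • ∫ x in S, (Real.cos x ^ 2) ^ n • G x) - G 0) ⟨p, hp⟩
    rw [ContinuousMap.sub_apply, h1, hGe, sub_zero] at h3
    rw [abs_sub_comm]
    exact (le_trans h3 h2.le : ‖trg N a b p - f p‖ ≤ η)
  intro p
  by_cases hpR : R ≤ |p.1|
  · have h1 : trg N a b p = 0 := by
      unfold trg
      apply Finset.sum_eq_zero
      intro m _
      rw [(hvanab m p.1 hpR).1, (hvanab m p.1 hpR).2]
      ring
    rw [hR p hpR, h1]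
    simp [hη.le]
  · rw [not_le, abs_lt] at hpR
    have hk := Int.sub_floor_div_mul_nonneg p.2 hpi
    have hk2 := Int.sub_floor_div_mul_lt p.2 hpi
    set k : ℤ := ⌊p.2 / Real.pi⌋
    have h1 := hmain (p.1, p.2 - k * Real.pi) ⟨⟨hpR.1.le, hpR.2.le⟩, ⟨hk, hk2.le⟩⟩
    have h2 := hper (p.1, p.2 - k * Real.pi) k
    simp only [sub_add_cancel] at h2
    have h3 : trg N a b (p.1, p.2 - k * Real.pi) = trg N a b p := by
      unfold trg
      refine Finset.sum_congr rfl fun m _ => ?_
      simp only
      have e : 2 * (m : ℝ) * (p.2 - k * Real.pi) = 2 * m * p.2 - ((m * k : ℤ) : ℝ) * (2 * Real.pi) := by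
        push_cast
        ring
      rw [e, Real.cos_sub_int_mul_two_pi, Real.sin_sub_int_mul_two_pi]
    rw [h3, ← h2] at h1
    exact h1

end Pool.Agent.H30.HK
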